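import Mathlib

/-!
# Pumping lemma for context-free grammars with a regular colouring
-/

namespace Pool.Agent.H27AI

open Relation

variable {A : Type*}

/-- `Yields g u w`: the string of symbols `u` yields the terminal word `w`. -/
inductive Yields (g : ContextFreeGrammar A) : List (Symbol A g.NT) → List A → Prop
  | nil : Yields g [] []
  | term (a : A) {u : List (Symbol A g.NT)} {w : List A} (h : Yields g u w) :
      Yields g (Symbol.terminal a :: u) (a :: w)
  | nonterm (r : ContextFreeRule A g.NT) (hr : r ∈ g.rules) {u : List (Symbol A g.NT)}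
      {w₁ w₂ : List A} (h₁ : Yields g r.output w₁) (h₂ : Yields g u w₂) :
      Yields g (Symbol.nonterminal r.input :: u) (w₁ ++ w₂)

theorem yields_append {g : ContextFreeGrammar A} {u v : List (Symbol A g.NT)} {w₁ w₂ : List A}
    (h₁ : Yields g u w₁) (h₂ : Yields g v w₂) : Yields g (u ++ v) (w₁ ++ w₂) := by
  induction h₁ with
  | nil => simpa using h₂
  | term a h ih => exact Yields.term a ih
  | nonterm r hr h₁ h₂ ih₁ ih₂ =>
    rw [List.cons_append, List.append_assoc]
    exact Yields.nonterm r hr h₁ ih₂

theorem yields_split {g : ContextFreeGrammar A} (u : List (Symbol A g.NT)) :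
    ∀ {v : List (Symbol A g.NT)} {w : List A}, Yields g (u ++ v) w →
      ∃ w₁ w₂, w = w₁ ++ w₂ ∧ Yields g u w₁ ∧ Yields g v w₂ := by
  induction u with
  | nil => intro v w h; exact ⟨[], w, rfl, Yields.nil, h⟩
  | cons a u ih =>
    intro v w h
    rw [List.cons_append] at h
    cases h with
    | term a h =>
      obtain ⟨w₁, w₂, rfl, h₁, h₂⟩ := ih h
      exact ⟨a :: w₁, w₂, rfl, Yields.term a h₁, h₂⟩
    | nonterm r hr h₁ h₂ =>
      obtain ⟨w₁, w₂, rfl, h₃, h₄⟩ := ih h₂
      exact ⟨_, w₂, (List.append_assoc _ _ _).symm, Yields.nonterm r hr h₁ h₃, h₄⟩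

theorem yields_map_terminal (g : ContextFreeGrammar A) (w : List A) :
    Yields g (w.map Symbol.terminal) w := by
  induction w with
  | nil => exact Yields.nil
  | cons a w ih => exact Yields.term a ih

theorem Yields.derives {g : ContextFreeGrammar A} {u : List (Symbol A g.NT)} {w : List A}
    (h : Yields g u w) : g.Derives u (w.map Symbol.terminal) := by
  induction h with
  | nil => exact ReflTransGen.refl
  | term a h ih =>
    have := ih.append_left [Symbol.terminal a]
    simpa using this
  | @nonterm r hr u w₁ w₂ h₁ h₂ ih₁ ih₂ =>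
    have h0 : g.Produces (Symbol.nonterminal r.input :: u) (r.output ++ u) :=
      ⟨r, hr, ContextFreeRule.Rewrites.head u⟩
    have h3 : g.Derives (r.output ++ u) (w₁.map Symbol.terminal ++ u) := ih₁.append_right u
    have h4 : g.Derives (w₁.map Symbol.terminal ++ u)
        (w₁.map Symbol.terminal ++ w₂.map Symbol.terminal) := ih₂.append_left _
    rw [List.map_append]
    exact h0.trans_derives (h3.trans h4)

theorem yields_of_produces {g : ContextFreeGrammar A} {u v : List (Symbol A g.NT)}
    (h : g.Produces u v) {w : List A} (hv : Yields g v w) : Yields g u w := by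
  obtain ⟨r, hr, h⟩ := h
  obtain ⟨p, q, rfl, rfl⟩ := h.exists_parts
  rw [List.append_assoc] at hv
  obtain ⟨w₁, w', rfl, h₁, h'⟩ := yields_split p hv
  obtain ⟨w₂, w₃, rfl, h₂, h₃⟩ := yields_split r.output h'
  rw [List.append_assoc]
  exact yields_append h₁ (Yields.nonterm r hr h₂ h₃)

theorem yields_of_derives {g : ContextFreeGrammar A} {u v : List (Symbol A g.NT)}
    (h : g.Derives u v) : ∀ {w : List A}, Yields g v w → Yields g u w := by
  induction h with
  | refl => exact fun h => h
  | tail _ h2 ih => exact fun hv => ih (yields_of_produces h2 hv)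

theorem yields_iff {g : ContextFreeGrammar A} {u : List (Symbol A g.NT)} {w : List A} :
    Yields g u w ↔ g.Derives u (w.map Symbol.terminal) :=
  ⟨Yields.derives, fun h => yields_of_derives h (yields_map_terminal g w)⟩

/-- Window lemma: a node whose yield has length in `(t, r * t]`. -/
theorem window {g : ContextFreeGrammar A} {r t : ℕ} (ht : 1 ≤ t)
    (hr : ∀ ρ ∈ g.rules, ρ.output.length ≤ r) {u : List (Symbol A g.NT)} {w : List A}
    (h : Yields g u w) :
    w.length ≤ u.length * t ∨ ∃ (N : g.NT) (a w' b : List A), t < w'.length ∧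
      w'.length ≤ r * t ∧ Yields g [Symbol.nonterminal N] w' ∧ w = a ++ w' ++ b ∧
      g.Derives u (a.map Symbol.terminal ++ [Symbol.nonterminal N] ++ b.map Symbol.terminal) := by
  induction h with
  | nil => left; simp
  | @term c u w h ih =>
    rcases ih with ih | ⟨N, a, w', b, h1, h2, h3, rfl, h5⟩
    · left
      simp only [List.length_cons, add_mul, one_mul]
      omega
    · right
      refine ⟨N, c :: a, w', b, h1, h2, h3, by simp, ?_⟩
      have := h5.append_left [Symbol.terminal c]
      simpa using this
  | @nonterm ρ hρ u w₁ w₂ h₁ h₂ ih₁ ih₂ =>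
    have h0 : g.Produces (Symbol.nonterminal ρ.input :: u) (ρ.output ++ u) :=
      ⟨ρ, hρ, ContextFreeRule.Rewrites.head u⟩
    rcases ih₁ with ih₁ | ⟨N, a, w', b, h1, h2, h3, rfl, h5⟩
    · by_cases hw : t < w₁.length
      · right
        refine ⟨ρ.input, [], w₁, w₂, hw, ih₁.trans (Nat.mul_le_mul_right _ (hr ρ hρ)), ?_,
          by simp, ?_⟩
        · have := Yields.nonterm ρ hρ h₁ Yields.nil
          simpa using this
        · have := h₂.derives.append_left [Symbol.nonterminal ρ.input]
          simpa using this
      · rcases ih₂ with ih₂ | ⟨N, a, w', b, h1, h2, h3, rfl, h5⟩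
        · left
          simp only [List.length_cons, List.length_append, add_mul, one_mul]
          omega
        · right
          refine ⟨N, w₁ ++ a, w', b, h1, h2, h3, by simp, ?_⟩
          have h6 : g.Derives (Symbol.nonterminal ρ.input :: u)
              (w₁.map Symbol.terminal ++ u) :=
            h0.trans_derives (h₁.derives.append_right u)
          have h7 := h5.append_left (w₁.map Symbol.terminal)
          have h8 := h6.trans h7
          simpa using h8
    · right
      refine ⟨N, a, w', b ++ w₂, h1, h2, h3, by simp, ?_⟩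
      have h6 : g.Derives (Symbol.nonterminal ρ.input :: u)
          ((a.map Symbol.terminal ++ [Symbol.nonterminal N] ++ b.map Symbol.terminal) ++ u) :=
        h0.trans_derives (h5.append_right u)
      have h7 := h₂.derives.append_left
        (a.map Symbol.terminal ++ [Symbol.nonterminal N] ++ b.map Symbol.terminal)
      have h8 := h6.trans h7
      simpa using h8

/-- The node relation: a node and a proper descendant with strictly shorter yield. -/
def Sub (g : ContextFreeGrammar A) (p q : g.NT × List A) : Prop :=
  Yields g [Symbol.nonterminal q.1] q.2 ∧ ∃ a b : List A, 0 < a.length + b.length ∧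
    p.2 = a ++ q.2 ++ b ∧ g.Derives [Symbol.nonterminal p.1]
      (a.map Symbol.terminal ++ [Symbol.nonterminal q.1] ++ b.map Symbol.terminal)

theorem Sub.trans {g : ContextFreeGrammar A} {p q r : g.NT × List A} (h₁ : Sub g p q)
    (h₂ : Sub g q r) : Sub g p r := by
  obtain ⟨_, a, b, h0, h1, h2⟩ := h₁
  obtain ⟨hy, a', b', h0', h1', h2'⟩ := h₂
  refine ⟨hy, a ++ a', b' ++ b, ?_, ?_, ?_⟩
  · simp only [List.length_append]; omega
  · rw [h1, h1']; simp
  · have h3 := (h2'.append_left (a.map Symbol.terminal)).append_right (b.map Symbol.terminal)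
    have h4 := h2.trans h3
    simpa using h4

theorem chain {g : ContextFreeGrammar A} {r : ℕ} (hr0 : 1 ≤ r)
    (hr : ∀ ρ ∈ g.rules, ρ.output.length ≤ r) (m : ℕ) :
    ∀ (N : g.NT) (w : List A), Yields g [Symbol.nonterminal N] w → r ^ m < w.length →
      ∃ f : ℕ → g.NT × List A, f 0 = (N, w) ∧ ∀ j < m, Sub g (f j) (f (j + 1)) := by
  induction m with
  | zero => intro N w _ _; exact ⟨fun _ => (N, w), rfl, by simp⟩
  | succ m ih =>
    intro N w hN hw
    have ht : 1 ≤ r ^ m := Nat.one_le_pow _ _ hr0
    rcases window ht hr hN with h | ⟨N', a, w', b, h1, h2, h3, h4, h5⟩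
    · exfalso
      simp only [List.length_singleton, one_mul] at h
      have : r ^ m ≤ r ^ (m + 1) := Nat.pow_le_pow_right hr0 (Nat.le_succ m)
      omega
    · obtain ⟨f, hf0, hf⟩ := ih N' w' h3 h1
      refine ⟨fun j => Nat.casesOn j (N, w) f, rfl, ?_⟩
      intro j hj
      rcases j with _ | j
      · change Sub g (N, w) (f 0)
        rw [hf0]
        refine ⟨h3, a, b, ?_, h4, h5⟩
        have h6 : w'.length < w.length := by
          have : r ^ (m + 1) = r * r ^ m := by ring
          omega
        rw [h4] at h6
        simp only [List.length_append] at h6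
        omega
      · exact hf j (by omega)

theorem chain_lt {g : ContextFreeGrammar A} {f : ℕ → g.NT × List A} {m : ℕ}
    (hf : ∀ j < m, Sub g (f j) (f (j + 1))) (j : ℕ) :
    ∀ k, j < k → k ≤ m → Sub g (f j) (f k) := by
  intro k
  induction k with
  | zero => intro h; omega
  | succ k ih =>
    intro h1 h2
    rcases Nat.lt_or_ge j k with h | h
    · exact (ih h (by omega)).trans (hf k (by omega))
    · have : j = k := by omega
      subst this
      exact hf j (by omega)

theorem exists_rule_of_yields {g : ContextFreeGrammar A} {N : g.NT} {w : List A}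
    (h : Yields g [Symbol.nonterminal N] w) : ∃ ρ ∈ g.rules, ρ.input = N := by
  cases h with
  | nonterm r hr h₁ h₂ => exact ⟨r, hr, rfl⟩

theorem derives_pump {g : ContextFreeGrammar A} {N : g.NT} {x y : List A}
    (h : g.Derives [Symbol.nonterminal N]
      (x.map Symbol.terminal ++ [Symbol.nonterminal N] ++ y.map Symbol.terminal)) (i : ℕ) :
    g.Derives [Symbol.nonterminal N]
      ((List.replicate i x).flatten.map Symbol.terminal ++ [Symbol.nonterminal N] ++
        (List.replicate i y).flatten.map Symbol.terminal) := by
  induction i with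
  | zero => simpa using ReflTransGen.refl
  | succ i ih =>
    have h1 := (h.append_left ((List.replicate i x).flatten.map Symbol.terminal)).append_right
      ((List.replicate i y).flatten.map Symbol.terminal)
    have h2 := ih.trans h1
    have e1 : (List.replicate (i + 1) x).flatten = (List.replicate i x).flatten ++ x := by
      rw [List.replicate_succ']; simp
    have e2 : (List.replicate (i + 1) y).flatten = y ++ (List.replicate i y).flatten := by
      rw [List.replicate_succ]; simp
    rw [e1, e2]
    simpa using h2

theorem cfg_pumping (g : ContextFreeGrammar A) (R : Language A) (hR : R.IsRegular) :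
    ∃ p : ℕ, ∀ w ∈ g.language, p ≤ w.length →
      ∃ c x s y z : List A, w = c ++ x ++ s ++ y ++ z ∧ 0 < x.length + y.length ∧
        ∀ i : ℕ, (c ++ (List.replicate i x).flatten ++ s ++ (List.replicate i y).flatten ++ z
            ∈ g.language ∧
          (c ++ (List.replicate i x).flatten ++ s ++ (List.replicate i y).flatten ++ z ∈ R ↔
            w ∈ R)) := by
  classical
  obtain ⟨σ, _, M, rfl⟩ := hR
  obtain ⟨r, hr0, hr⟩ : ∃ r : ℕ, 1 ≤ r ∧ ∀ ρ ∈ g.rules, ρ.output.length ≤ r := by
    refine ⟨g.rules.sup (fun ρ => ρ.output.length) + 1, by omega, ?_⟩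
    intro ρ hρ
    have : ρ.output.length ≤ g.rules.sup (fun ρ => ρ.output.length) :=
      Finset.le_sup (f := fun ρ : ContextFreeRule A g.NT => ρ.output.length) hρ
    omega
  let I : Finset g.NT := g.rules.image (fun ρ => ρ.input)
  let m : ℕ := Fintype.card ({N // N ∈ I} × (σ → σ))
  refine ⟨r ^ (m + 1) + 1, ?_⟩
  intro w hw hlen
  have hy : Yields g [Symbol.nonterminal g.initial] w := yields_iff.2 hw
  obtain ⟨f, hf0, hf⟩ := chain hr0 hr (m + 1) g.initial w hy (by omega)
  have hyf : ∀ j, j ≤ m + 1 → Yields g [Symbol.nonterminal (f j).1] (f j).2 := by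
    intro j hj
    rcases j with _ | j
    · rw [hf0]; exact hy
    · exact (hf j (by omega)).1
  have hI : ∀ j : Fin (m + 1), (f j).1 ∈ I := by
    intro j
    obtain ⟨ρ, hρ, h⟩ := exists_rule_of_yields (hyf j (by omega))
    exact Finset.mem_image.2 ⟨ρ, hρ, h⟩
  let col : Fin (m + 1) → {N // N ∈ I} × (σ → σ) :=
    fun j => (⟨(f j).1, hI j⟩, fun q => M.evalFrom q (f j).2)
  obtain ⟨j₁, j₂, hne, heq⟩ := Fintype.exists_ne_map_eq_of_card_lt col (by
    rw [Fintype.card_fin]; exact Nat.lt_succ_self m)
  obtain ⟨j, k, hjk, hkm, heq⟩ : ∃ j k : ℕ, j < k ∧ k ≤ m ∧ (f j).1 = (f k).1 ∧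
      ∀ q, M.evalFrom q (f j).2 = M.evalFrom q (f k).2 := by
    have e1 : (f j₁).1 = (f j₂).1 := congrArg (fun t => (t.1 : g.NT)) heq
    have e2 : ∀ q, M.evalFrom q (f j₁).2 = M.evalFrom q (f j₂).2 := by
      intro q
      exact congrFun (congrArg (fun t => t.2) heq) q
    rcases lt_or_gt_of_ne hne with h | h
    · exact ⟨j₁, j₂, h, by omega, e1, e2⟩
    · exact ⟨j₂, j₁, h, by omega, e1.symm, fun q => (e2 q).symm⟩
  obtain ⟨eN, eq⟩ := heq
  obtain ⟨hyk, x, y, hxy, e1, hd⟩ := chain_lt hf j k hjk (by omega)
  -- the context of node j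
  obtain ⟨c, z, ecz, hcz⟩ : ∃ c z : List A, w = c ++ (f j).2 ++ z ∧
      g.Derives [Symbol.nonterminal g.initial]
        (c.map Symbol.terminal ++ [Symbol.nonterminal (f j).1] ++ z.map Symbol.terminal) := by
    rcases Nat.eq_zero_or_pos j with h | h
    · subst h
      refine ⟨[], [], by rw [hf0]; simp, ?_⟩
      rw [hf0]
      simpa using ReflTransGen.refl
    · obtain ⟨_, c, z, _, e, hcz⟩ := chain_lt hf 0 j h (by omega)
      rw [hf0] at e hcz
      exact ⟨c, z, e, hcz⟩
  rw [← eN] at hd hyk
  refine ⟨c, x, (f k).2, y, z, ?_, hxy, ?_⟩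
  · rw [ecz, e1]; simp
  · intro i
    constructor
    · -- derivation
      change g.Derives [Symbol.nonterminal g.initial] (List.map Symbol.terminal _)
      have h1 := derives_pump hd i
      have h2 := hyk.derives
      have h3 := (h2.append_left ((List.replicate i x).flatten.map Symbol.terminal)).append_right
        ((List.replicate i y).flatten.map Symbol.terminal)
      have h4 := h1.trans h3
      have h5 := (h4.append_left (c.map Symbol.terminal)).append_right (z.map Symbol.terminal)
      have h6 := hcz.trans h5
      simpa using h6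
    · -- colouring
      have key : ∀ q, M.evalFrom q ((List.replicate i x).flatten ++ (f k).2 ++
          (List.replicate i y).flatten) = M.evalFrom q (f k).2 := by
        induction i with
        | zero => intro q; simp
        | succ i ih =>
          intro q
          have e3 : (List.replicate (i + 1) x).flatten = (List.replicate i x).flatten ++ x := by
            rw [List.replicate_succ']; simp
          have e4 : (List.replicate (i + 1) y).flatten = y ++ (List.replicate i y).flatten := by
            rw [List.replicate_succ]; simp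
          rw [e3, e4]
          have e5 : (List.replicate i x).flatten ++ x ++ (f k).2 ++
              (y ++ (List.replicate i y).flatten) = (List.replicate i x).flatten ++ (f j).2 ++
                (List.replicate i y).flatten := by rw [e1]; simp
          rw [e5, DFA.evalFrom_of_append, DFA.evalFrom_of_append, eq, ← DFA.evalFrom_of_append,
            ← DFA.evalFrom_of_append]
          have e7 := ih q
          rw [List.append_assoc] at e7
          exact e7
      have k1 : M.eval (c ++ (List.replicate i x).flatten ++ (f k).2 ++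
          (List.replicate i y).flatten ++ z) = M.eval w := by
        have e6 : c ++ (List.replicate i x).flatten ++ (f k).2 ++
          (List.replicate i y).flatten ++ z = c ++ ((List.replicate i x).flatten ++ (f k).2 ++
          (List.replicate i y).flatten) ++ z := by simp
        rw [e6, ecz]
        unfold DFA.eval
        rw [DFA.evalFrom_of_append, DFA.evalFrom_of_append, key, DFA.evalFrom_of_append,
          DFA.evalFrom_of_append, eq]
      rw [DFA.mem_accepts, DFA.mem_accepts, k1]

end Pool.Agent.H27AI
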