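import Pool.Agent.H27AI.Lead

/-!
# Atomic codes of marked lines and their composition
-/

namespace AddInv

section

variable {Γ : Type}

/-- The letter of a nonzero number: the entry of `zs` at its leading digit (minus one). -/
def labY (zs : List Γ) (B x : ℕ) : Option Γ := if x = 0 then none else zs[ld B x - 1]?

/-- The label of a remainder with mark `g`. -/
def labR (zs : List Γ) (B : ℕ) (g : Γ) (y : ℕ) : Option (Γ × Bool) :=
  if y = 0 then some (g, false) else (labY zs B y).map fun z => (z, true)

/-- The label of a number below `nn`: the mark (with `false`) if the remainder is zero, and the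
letter of the remainder (with `true`) otherwise. -/
def labA (zs : List Γ) (B : ℕ) (w : List (Option Γ)) (x : ℕ) : Option (Γ × Bool) :=
  if x < nn B w then (seg B w x).bind fun z => labR zs B z.1 z.2 else none

/-- Atomic codes. -/
def CodeL (Γ : Type) (k : ℕ) : Type :=
  (Option (Fin k) → Option (Fin k) → Option (Fin k) → Bool → Bool → Prop) ×
    (Fin k → Fin k → Prop) × (Fin k → Prop) × (Fin k → Prop) × (Fin k → Option Γ) ×
    (Fin k → Option (Γ × Bool)) × (Fin k → Bool) × (Fin k → Fin k → Prop) ×
    (Fin k → Fin k → Prop)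

instance (Γ : Type) [Finite Γ] (k : ℕ) : Finite (CodeL Γ k) := by
  unfold CodeL
  have h1 : Finite ((Fin k → Bool) × (Fin k → Fin k → Prop) × (Fin k → Fin k → Prop)) :=
    inferInstance
  have h2 : Finite ((Fin k → Option (Γ × Bool)) × (Fin k → Bool) × (Fin k → Fin k → Prop) ×
    (Fin k → Fin k → Prop)) := inferInstance
  have h3 : Finite ((Fin k → Option Γ) × (Fin k → Option (Γ × Bool)) × (Fin k → Bool) ×
    (Fin k → Fin k → Prop) × (Fin k → Fin k → Prop)) := inferInstance
  have h4 : Finite ((Fin k → Prop) × (Fin k → Prop) × (Fin k → Option Γ) ×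
    (Fin k → Option (Γ × Bool)) × (Fin k → Bool) × (Fin k → Fin k → Prop) ×
    (Fin k → Fin k → Prop)) := inferInstance
  have h5 : Finite ((Option (Fin k) → Option (Fin k) → Option (Fin k) → Bool → Bool → Prop) ×
    (Fin k → Fin k → Prop)) := inferInstance
  have h6 : Finite ((Fin k → Fin k → Prop) × (Fin k → Prop) × (Fin k → Prop) ×
    (Fin k → Option Γ) × (Fin k → Option (Γ × Bool)) × (Fin k → Bool) ×
    (Fin k → Fin k → Prop) × (Fin k → Fin k → Prop)) := inferInstance
  exact inferInstance

/-- The atomic code of a tuple of numbers in the marked line `w`. -/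
def codeL (zs : List Γ) (B : ℕ) (w : List (Option Γ)) (k : ℕ) (y : Fin k → ℕ) : CodeL Γ k :=
  (fun a b d c c' => val y a + val y b + c.toNat = val y d + c'.toNat * B ^ w.length,
    fun a b => y a < y b, fun a => y a < nn B w, fun a => y a = nn B w,
    fun a => labY zs B (y a), fun a => labA zs B w (y a),
    fun a => decide (y a < nn B w) && zb (seg B w (y a)),
    fun a b => rho B (y a) < rho B (y b),
    fun a b => y a < nn B w ∧ y b < nn B w ∧ rhoA B w (y a) < rhoA B w (y b))

section

variable {zs : List Γ} {B : ℕ} {w w' : List (Option Γ)} {k : ℕ} {y y' : Fin k → ℕ}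
  (h : codeL zs B w k y = codeL zs B w' k y')

include h

lemma cl_add (a b d : Option (Fin k)) (c c' : Bool) :
    (val y a + val y b + c.toNat = val y d + c'.toNat * B ^ w.length) =
      (val y' a + val y' b + c.toNat = val y' d + c'.toNat * B ^ w'.length) :=
  congrFun (congrFun (congrFun (congrFun (congrFun (congrArg (fun z => z.1) h) a) b) d) c) c'

lemma cl_lt (a b : Fin k) : (y a < y b) = (y' a < y' b) :=
  congrFun (congrFun (congrArg (fun z => z.2.1) h) a) b

lemma cl_ltn (a : Fin k) : (y a < nn B w) = (y' a < nn B w') :=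
  congrFun (congrArg (fun z => z.2.2.1) h) a

lemma cl_eqn (a : Fin k) : (y a = nn B w) = (y' a = nn B w') :=
  congrFun (congrArg (fun z => z.2.2.2.1) h) a

lemma cl_labY (a : Fin k) : labY zs B (y a) = labY zs B (y' a) :=
  congrFun (congrArg (fun z => z.2.2.2.2.1) h) a

lemma cl_labA (a : Fin k) : labA zs B w (y a) = labA zs B w' (y' a) :=
  congrFun (congrArg (fun z => z.2.2.2.2.2.1) h) a

lemma cl_zb (a : Fin k) : (decide (y a < nn B w) && zb (seg B w (y a))) =
    (decide (y' a < nn B w') && zb (seg B w' (y' a))) :=
  congrFun (congrArg (fun z => z.2.2.2.2.2.2.1) h) a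

lemma cl_rho (a b : Fin k) : (rho B (y a) < rho B (y b)) = (rho B (y' a) < rho B (y' b)) :=
  congrFun (congrFun (congrArg (fun z => z.2.2.2.2.2.2.2.1) h) a) b

lemma cl_rhoA (a b : Fin k) :
    (y a < nn B w ∧ y b < nn B w ∧ rhoA B w (y a) < rhoA B w (y b)) =
    (y' a < nn B w' ∧ y' b < nn B w' ∧ rhoA B w' (y' a) < rhoA B w' (y' b)) :=
  congrFun (congrFun (congrArg (fun z => z.2.2.2.2.2.2.2.2) h) a) b

lemma cl_eq (a b : Fin k) : (y a = y b) = (y' a = y' b) := by
  have := cl_add h (some a) none (some b) false false
  simpa [val] using this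

lemma cl_zero (a : Fin k) : (y a = 0) = (y' a = 0) := by
  have := cl_add h (some a) none none false false
  simpa [val] using this

end

/-- Splitting an addition with carries, the high part first. -/
lemma carry_split' {S S' α₁ α₂ α₃ β₁ β₂ β₃ : ℕ} (c c' : Bool) (h1 : α₁ < S) (h2 : α₂ < S)
    (h3 : α₃ < S) :
    (β₁ * S + α₁) + (β₂ * S + α₂) + c.toNat = (β₃ * S + α₃) + c'.toNat * (S' * S) ↔
      ∃ e : Bool, α₁ + α₂ + c.toNat = α₃ + e.toNat * S ∧
        β₁ + β₂ + e.toNat = β₃ + c'.toNat * S' := by
  rw [← carry_split c c' h1 h2 h3]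
  have e1 : ∀ x y : ℕ, x * S + y = y + S * x := fun x y => by ring
  rw [e1, e1, e1, mul_comm S' S]

lemma val_add' {k : ℕ} (S : ℕ) (y0 y1 : Fin k → ℕ) (a : Option (Fin k)) :
    val (fun i => y1 i * S + y0 i) a = val y1 a * S + val y0 a := by
  cases a <;> simp [val]

variable {zs : List Γ} {B : ℕ} (hB : 2 ≤ B)

include hB

lemma labY_mul_add {a c k : ℕ} (hc : c < B ^ k) :
    labY zs B (a * B ^ k + c) = if a = 0 then labY zs B c else labY zs B a := by
  by_cases ha : a = 0
  · subst ha
    simp
  · rw [if_neg ha]
    unfold labY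
    have hpos : 0 < B ^ k := by positivity
    have h0 : a * B ^ k + c ≠ 0 := by
      have : 0 < a * B ^ k := Nat.mul_pos (by omega) hpos
      omega
    rw [if_neg h0, if_neg ha, ld_mul_add hB (by omega) hc]

/-- A number with a nonzero remainder keeps its label. -/
lemma labA_append_left (u v : List (Option Γ)) (a c : ℕ) (ha : a < nn B u)
    (hc : c < B ^ v.length) :
    labA zs B (u ++ v) (a * B ^ v.length + c) =
      if zb (seg B u a) = true then (labA zs B u a).bind fun z => labR zs B z.1 c
      else labA zs B u a := by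
  have hlt : a * B ^ v.length + c < nn B (u ++ v) := by
    rw [nn_append]
    have := (block_lt_iff (M := nn B u) hc).2 ha
    omega
  unfold labA
  rw [if_pos hlt, if_pos ha, seg_append_left u v a c ha hc]
  obtain ⟨⟨g, y⟩, hgy⟩ := Option.isSome_iff_exists.1 (seg_isSome u a ha)
  rw [hgy]
  by_cases hy : y = 0
  · subst hy
    simp [zb, labR]
  · have h1 : zb (some (g, y) : Option (Γ × ℕ)) = false := by simp [zb, hy]
    rw [h1]
    simp only [Option.map_some, Option.bind_some, Bool.false_eq_true, if_false]
    unfold labR
    have hpos : 0 < B ^ v.length := by positivity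
    have h0 : y * B ^ v.length + c ≠ 0 := by
      have : 0 < y * B ^ v.length := Nat.mul_pos (by omega) hpos
      omega
    rw [if_neg h0, if_neg hy, labY_mul_add hB hc, if_neg hy]

omit hB in
lemma labA_append_right (u v : List (Option Γ)) (c : ℕ) (hc : c < B ^ v.length) :
    labA zs B (u ++ v) (nn B u * B ^ v.length + c) = labA zs B v c := by
  unfold labA
  rw [nn_append, seg_append_right u v c hc]
  by_cases h : c < nn B v
  · rw [if_pos h, if_pos (by omega)]
  · rw [if_neg h, if_neg (by omega)]

omit hB in
lemma labA_of_le (w : List (Option Γ)) (x : ℕ) (h : nn B w ≤ x) : labA zs B w x = none := by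
  unfold labA
  rw [if_neg (by omega)]

/-- The label of a composite number. -/
lemma labA_append (u v : List (Option Γ)) (a c : ℕ) (hc : c < B ^ v.length) :
    labA zs B (u ++ v) (a * B ^ v.length + c) =
      if a < nn B u then
        (if zb (seg B u a) = true then (labA zs B u a).bind fun z =>
          (if c = 0 then some (z.1, false) else (labY zs B c).map fun z => (z, true))
        else labA zs B u a)
      else if a = nn B u then labA zs B v c else none := by
  rcases lt_trichotomy a (nn B u) with h | h | h
  · rw [if_pos h]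
    exact labA_append_left hB u v a c h hc
  · subst h
    rw [if_neg (lt_irrefl _), if_pos rfl]
    exact labA_append_right u v c hc
  · rw [if_neg (by omega), if_neg (by omega)]
    apply labA_of_le
    rw [nn_append]
    have h1 := nn_lt hB v
    have h2 : (nn B u + 1) * B ^ v.length ≤ a * B ^ v.length := Nat.mul_le_mul_right _ h
    rw [Nat.add_mul, one_mul] at h2
    omega

lemma ltn_append (u v : List (Option Γ)) (a c : ℕ) (hc : c < B ^ v.length) :
    a * B ^ v.length + c < nn B (u ++ v) ↔ a < nn B u ∨ (a = nn B u ∧ c < nn B v) := by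
  rw [nn_append]
  exact lt_aux hc (nn_lt hB v)

lemma eqn_append (u v : List (Option Γ)) (a c : ℕ) (hc : c < B ^ v.length) :
    a * B ^ v.length + c = nn B (u ++ v) ↔ a = nn B u ∧ c = nn B v := by
  rw [nn_append]
  exact eq_aux hc (nn_lt hB v)

/-- Whether a composite number has a zero remainder. -/
lemma zb_append (u v : List (Option Γ)) (a c : ℕ) (hc : c < B ^ v.length) :
    (decide (a * B ^ v.length + c < nn B (u ++ v)) &&
        zb (seg B (u ++ v) (a * B ^ v.length + c))) =
      if a < nn B u then ((decide (a < nn B u) && zb (seg B u a)) && decide (c = 0))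
      else if a = nn B u then (decide (c < nn B v) && zb (seg B v c)) else false := by
  rcases lt_trichotomy a (nn B u) with h | h | h
  · rw [if_pos h, decide_eq_true ((ltn_append hB u v a c hc).2 (Or.inl h)),
      decide_eq_true h, Bool.true_and, Bool.true_and, seg_append_left u v a c h hc]
    obtain ⟨⟨g, y⟩, hgy⟩ := Option.isSome_iff_exists.1 (seg_isSome u a h)
    rw [hgy]
    show ((y * B ^ v.length + c) == 0) = ((y == 0) && decide (c = 0))
    have hpos : 0 < B ^ v.length := by positivity
    by_cases hy : y = 0
    · subst hy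
      by_cases hc0 : c = 0
      · subst hc0; simp
      · simp [hc0]
    · have : 0 < y * B ^ v.length := Nat.mul_pos (by omega) hpos
      have h1 : ((y * B ^ v.length + c) == 0) = false := by
        rw [beq_eq_false_iff_ne]; omega
      have h2 : (y == 0) = false := by rw [beq_eq_false_iff_ne]; exact hy
      rw [h1, h2, Bool.false_and]
  · subst h
    rw [if_neg (lt_irrefl _), if_pos rfl, seg_append_right u v c hc]
    congr 1
    apply decide_eq_decide.2
    rw [ltn_append hB u v _ c hc]
    constructor
    · rintro (h | ⟨_, h⟩)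
      · exact absurd h (lt_irrefl _)
      · exact h
    · intro h; exact Or.inr ⟨rfl, h⟩
  · rw [if_neg (by omega), if_neg (by omega)]
    have h1 : ¬ (a * B ^ v.length + c < nn B (u ++ v)) := by
      rw [ltn_append hB u v a c hc]
      omega
    rw [decide_eq_false h1, Bool.false_and]

/-- Comparing `rho` of composite numbers. -/
lemma rho_lt_append {k a a' c c' : ℕ} (hc : c < B ^ k) (hc' : c' < B ^ k) :
    rho B (a * B ^ k + c) < rho B (a' * B ^ k + c') ↔
      (if a = 0 then (if a' = 0 then rho B c < rho B c' else True)
        else (if a' = 0 then False else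
          (rho B a < rho B a' ∨ (¬ rho B a < rho B a' ∧ ¬ rho B a' < rho B a ∧ c < c')))) := by
  by_cases ha : a = 0
  · subst ha
    by_cases ha' : a' = 0
    · subst ha'
      simp
    · rw [if_pos rfl, if_neg ha', zero_mul, zero_add, rho_mul_add hB (by omega) hc']
      have h1 := rho_le hB c
      have h2 := rho_pos hB (x := a') (by omega)
      have h3 : 1 * B ^ k ≤ rho B a' * B ^ k := Nat.mul_le_mul_right _ h2
      constructor
      · intro _; trivial
      · intro _; omega
  · by_cases ha' : a' = 0
    · subst ha'
      rw [if_neg ha, if_pos rfl, zero_mul, zero_add, rho_mul_add hB (by omega) hc]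
      have h1 := rho_le hB c'
      have h2 := rho_pos hB (x := a) (by omega)
      have h3 : 1 * B ^ k ≤ rho B a * B ^ k := Nat.mul_le_mul_right _ h2
      constructor
      · intro h; omega
      · intro h; exact h.elim
    · rw [if_neg ha, if_neg ha', rho_mul_add hB (by omega) hc, rho_mul_add hB (by omega) hc',
        lt_aux hc hc']
      constructor
      · rintro (h | ⟨h, h'⟩)
        · exact Or.inl h
        · exact Or.inr ⟨by omega, by omega, h'⟩
      · rintro (h | ⟨h, h', h''⟩)
        · exact Or.inl h
        · exact Or.inr ⟨by omega, h''⟩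

end

end AddInv
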