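import Pool.Agent.H27AI.Code

/-!
# Composition of codes and of rank-q types of marked lines
-/

namespace AddInv

section

variable {Γ : Type} {zs : List Γ} {B : ℕ} (hB : 2 ≤ B)

include hB

lemma rhoA_lt_pow (w : List (Option Γ)) (x : ℕ) (h : x < nn B w) :
    rhoA B w x < B ^ w.length := by
  have h1 := rhoA_le hB w x
  have h2 := nn_lt hB w
  omega

lemma zb_iff_of_eq {w : List (Option Γ)} {x y : ℕ} (hx : x < nn B w) (hy : y < nn B w)
    (h1 : ¬ rhoA B w x < rhoA B w y) (h2 : ¬ rhoA B w y < rhoA B w x) :
    zb (seg B w x) = zb (seg B w y) := by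
  have h : rhoA B w x = rhoA B w y := by omega
  cases hz : zb (seg B w x)
  · cases hz' : zb (seg B w y)
    · rfl
    · rw [zb_of_rhoA_eq hB w y x hy hx h.symm hz'] at hz
      exact absurd hz (by simp)
  · exact (zb_of_rhoA_eq hB w x y hx hy h hz).symm

/-- Comparing `rhoA` of composite numbers. -/
lemma rhoA_lt_append (u v : List (Option Γ)) {a a' c c' : ℕ} (hc : c < B ^ v.length)
    (hc' : c' < B ^ v.length) :
    (a * B ^ v.length + c < nn B (u ++ v) ∧ a' * B ^ v.length + c' < nn B (u ++ v) ∧
      rhoA B (u ++ v) (a * B ^ v.length + c) < rhoA B (u ++ v) (a' * B ^ v.length + c')) ↔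
    (if a < nn B u then
      (if a' < nn B u then
        ((a < nn B u ∧ a' < nn B u ∧ rhoA B u a < rhoA B u a') ∨
          (¬ (a < nn B u ∧ a' < nn B u ∧ rhoA B u a < rhoA B u a') ∧
            ¬ (a' < nn B u ∧ a < nn B u ∧ rhoA B u a' < rhoA B u a) ∧
            (if (decide (a < nn B u) && zb (seg B u a)) = true then rho B c < rho B c'
              else c < c')))
      else (a' = nn B u ∧ c' < nn B v))
    else (if a' < nn B u then False else
      (a = nn B u ∧ a' = nn B u ∧
        (c < nn B v ∧ c' < nn B v ∧ rhoA B v c < rhoA B v c')))) := by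
  have hS : 0 < B ^ v.length := by positivity
  by_cases ha : a < nn B u
  · rw [if_pos ha]
    have hx : a * B ^ v.length + c < nn B (u ++ v) :=
      (ltn_append hB u v a c hc).2 (Or.inl ha)
    by_cases ha' : a' < nn B u
    · rw [if_pos ha']
      have hx' : a' * B ^ v.length + c' < nn B (u ++ v) :=
        (ltn_append hB u v a' c' hc').2 (Or.inl ha')
      rw [rhoA_append_left hB u v a c ha hc, rhoA_append_left hB u v a' c' ha' hc']
      have l1 := rho_le hB c
      have l2 := rho_le hB c'
      have r1 : (if zb (seg B u a) = true then a * B ^ v.length + rho B c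
          else rhoA B u a * B ^ v.length + c) = rhoA B u a * B ^ v.length +
            (if zb (seg B u a) = true then rho B c else c) := by
        by_cases hz : zb (seg B u a) = true
        · rw [if_pos hz, if_pos hz, rhoA_of_zb hB u a ha hz]
        · rw [if_neg hz, if_neg hz]
      have r2 : (if zb (seg B u a') = true then a' * B ^ v.length + rho B c'
          else rhoA B u a' * B ^ v.length + c') = rhoA B u a' * B ^ v.length +
            (if zb (seg B u a') = true then rho B c' else c') := by
        by_cases hz : zb (seg B u a') = true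
        · rw [if_pos hz, if_pos hz, rhoA_of_zb hB u a' ha' hz]
        · rw [if_neg hz, if_neg hz]
      rw [r1, r2, lt_aux (by split_ifs <;> omega) (by split_ifs <;> omega)]
      constructor
      · rintro ⟨_, _, h | ⟨h, h'⟩⟩
        · exact Or.inl ⟨ha, ha', h⟩
        · refine Or.inr ⟨fun h1 => by omega, fun h1 => by omega, ?_⟩
          have hz := zb_iff_of_eq hB ha ha' (by omega) (by omega)
          rw [← hz] at h'
          rw [decide_eq_true ha, Bool.true_and]
          by_cases hz1 : zb (seg B u a) = true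
          · rw [if_pos hz1]
            rw [if_pos hz1, if_pos hz1] at h'
            exact h'
          · rw [if_neg hz1]
            rw [if_neg hz1, if_neg hz1] at h'
            exact h'
      · rintro (⟨_, _, h⟩ | ⟨h1, h2, h'⟩)
        · exact ⟨hx, hx', Or.inl h⟩
        · refine ⟨hx, hx', ?_⟩
          have e1 : ¬ rhoA B u a < rhoA B u a' := fun h => h1 ⟨ha, ha', h⟩
          have e2 : ¬ rhoA B u a' < rhoA B u a := fun h => h2 ⟨ha', ha, h⟩
          have hz := zb_iff_of_eq hB ha ha' e1 e2
          refine Or.inr ⟨by omega, ?_⟩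
          rw [← hz]
          rw [decide_eq_true ha, Bool.true_and] at h'
          by_cases hz1 : zb (seg B u a) = true
          · rw [if_pos hz1] at h'
            rw [if_pos hz1, if_pos hz1]
            exact h'
          · rw [if_neg hz1] at h'
            rw [if_neg hz1, if_neg hz1]
            exact h'
    · rw [if_neg ha']
      constructor
      · rintro ⟨_, h2, _⟩
        rcases (ltn_append hB u v a' c' hc').1 h2 with h3 | h3
        · exact absurd h3 ha'
        · exact h3
      · rintro ⟨h2, h3⟩
        subst h2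
        refine ⟨hx, (ltn_append hB u v _ c' hc').2 (Or.inr ⟨rfl, h3⟩), ?_⟩
        rw [rhoA_append_right u v c' hc']
        have h4 := rhoA_le hB (u ++ v) (a * B ^ v.length + c)
        have h5 := (block_lt_iff (M := nn B u) hc).2 ha
        omega
  · rw [if_neg ha]
    by_cases ha' : a' < nn B u
    · rw [if_pos ha']
      constructor
      · rintro ⟨h1, _, h3⟩
        rcases (ltn_append hB u v a c hc).1 h1 with h4 | ⟨h4, h5⟩
        · exact ha h4
        · subst h4
          rw [rhoA_append_right u v c hc] at h3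
          have h6 := rhoA_le hB (u ++ v) (a' * B ^ v.length + c')
          have h7 := (block_lt_iff (M := nn B u) hc').2 ha'
          omega
      · intro h; exact h.elim
    · rw [if_neg ha', ltn_append hB u v a c hc, ltn_append hB u v a' c' hc']
      constructor
      · rintro ⟨h1, h2, h3⟩
        rcases h1 with h4 | ⟨h4, h5⟩
        · exact absurd h4 ha
        · rcases h2 with h6 | ⟨h6, h7⟩
          · exact absurd h6 ha'
          · subst h4
            subst h6
            rw [rhoA_append_right u v c hc, rhoA_append_right u v c' hc'] at h3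
            exact ⟨rfl, rfl, h5, h7, by omega⟩
      · rintro ⟨h4, h6, h5, h7, h8⟩
        subst h4
        subst h6
        rw [rhoA_append_right u v c hc, rhoA_append_right u v c' hc']
        exact ⟨Or.inr ⟨rfl, h5⟩, Or.inr ⟨rfl, h7⟩, by omega⟩

/-- Atomic codes compose. -/
lemma codeL_append {u v u' v' : List (Option Γ)} {k : ℕ} {a c a' c' : Fin k → ℕ}
    (hc : ∀ i, c i < B ^ v.length) (hc' : ∀ i, c' i < B ^ v'.length)
    (h1 : codeL zs B u k a = codeL zs B u' k a') (h0 : codeL zs B v k c = codeL zs B v' k c') :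
    codeL zs B (u ++ v) k (fun i => a i * B ^ v.length + c i) =
      codeL zs B (u' ++ v') k (fun i => a' i * B ^ v'.length + c' i) := by
  have hS : 0 < B ^ v.length := by positivity
  have hS' : 0 < B ^ v'.length := by positivity
  unfold codeL
  refine Prod.ext ?_ (Prod.ext ?_ (Prod.ext ?_ (Prod.ext ?_ (Prod.ext ?_ (Prod.ext ?_
    (Prod.ext ?_ (Prod.ext ?_ ?_)))))))
  · funext i j l e e'
    simp only [val_add', List.length_append, pow_add]
    rw [carry_split' e e' (val_lt hS c hc i) (val_lt hS c hc j) (val_lt hS c hc l),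
      carry_split' e e' (val_lt hS' c' hc' i) (val_lt hS' c' hc' j) (val_lt hS' c' hc' l)]
    congr 1
    funext e''
    rw [cl_add h0, cl_add h1]
  · funext i j
    show (a i * B ^ v.length + c i < a j * B ^ v.length + c j) =
      (a' i * B ^ v'.length + c' i < a' j * B ^ v'.length + c' j)
    rw [lt_aux (hc i) (hc j), lt_aux (hc' i) (hc' j), cl_lt h1, cl_eq h1, cl_lt h0]
  · funext i
    show (a i * B ^ v.length + c i < nn B (u ++ v)) =
      (a' i * B ^ v'.length + c' i < nn B (u' ++ v'))
    rw [ltn_append hB u v _ _ (hc i), ltn_append hB u' v' _ _ (hc' i), cl_ltn h1, cl_eqn h1,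
      cl_ltn h0]
  · funext i
    show (a i * B ^ v.length + c i = nn B (u ++ v)) =
      (a' i * B ^ v'.length + c' i = nn B (u' ++ v'))
    rw [eqn_append hB u v _ _ (hc i), eqn_append hB u' v' _ _ (hc' i), cl_eqn h1, cl_eqn h0]
  · funext i
    show labY zs B (a i * B ^ v.length + c i) = labY zs B (a' i * B ^ v'.length + c' i)
    rw [labY_mul_add hB (hc i), labY_mul_add hB (hc' i), cl_labY h1, cl_labY h0]
    simp only [cl_zero h1]
  · funext i
    show labA zs B (u ++ v) (a i * B ^ v.length + c i) =
      labA zs B (u' ++ v') (a' i * B ^ v'.length + c' i)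
    rw [labA_append hB u v _ _ (hc i), labA_append hB u' v' _ _ (hc' i)]
    have e1 := cl_ltn h1 i
    have e2 := cl_eqn h1 i
    have e3 := cl_zb h1 i
    have e4 := cl_zero h0 i
    rw [cl_labA h1, cl_labA h0, cl_labY h0]
    by_cases g1 : a i < nn B u
    · have g1' : a' i < nn B u' := by rw [← e1]; exact g1
      rw [if_pos g1, if_pos g1']
      rw [decide_eq_true g1, decide_eq_true g1', Bool.true_and, Bool.true_and] at e3
      rw [e3]
      simp only [e4]
    · have g1' : ¬ a' i < nn B u' := by rw [← e1]; exact g1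
      rw [if_neg g1, if_neg g1']
      simp only [e2]
  · funext i
    show (decide (a i * B ^ v.length + c i < nn B (u ++ v)) &&
        zb (seg B (u ++ v) (a i * B ^ v.length + c i))) =
      (decide (a' i * B ^ v'.length + c' i < nn B (u' ++ v')) &&
        zb (seg B (u' ++ v') (a' i * B ^ v'.length + c' i)))
    rw [zb_append hB u v _ _ (hc i), zb_append hB u' v' _ _ (hc' i), cl_zb h1, cl_zb h0]
    simp only [cl_ltn h1, cl_eqn h1, cl_zero h0]
  · funext i j
    show (rho B (a i * B ^ v.length + c i) < rho B (a j * B ^ v.length + c j)) =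
      (rho B (a' i * B ^ v'.length + c' i) < rho B (a' j * B ^ v'.length + c' j))
    rw [rho_lt_append hB (hc i) (hc j), rho_lt_append hB (hc' i) (hc' j)]
    simp only [cl_zero h1, cl_rho h0, cl_rho h1, cl_lt h0]
  · funext i j
    show (a i * B ^ v.length + c i < nn B (u ++ v) ∧ a j * B ^ v.length + c j < nn B (u ++ v) ∧
        rhoA B (u ++ v) (a i * B ^ v.length + c i) < rhoA B (u ++ v) (a j * B ^ v.length + c j)) =
      (a' i * B ^ v'.length + c' i < nn B (u' ++ v') ∧
        a' j * B ^ v'.length + c' j < nn B (u' ++ v') ∧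
        rhoA B (u' ++ v') (a' i * B ^ v'.length + c' i) <
          rhoA B (u' ++ v') (a' j * B ^ v'.length + c' j))
    rw [rhoA_lt_append hB u v (hc i) (hc j), rhoA_lt_append hB u' v' (hc' i) (hc' j),
      cl_rhoA h1, cl_rhoA h1, cl_rhoA h0, cl_zb h1, cl_rho h0, cl_lt h0]
    simp only [cl_ltn h1, cl_eqn h1, cl_ltn h0]

/-- The numbers below `B ^ length`. -/
def domL (B : ℕ) (w : List (Option Γ)) : Set ℕ := {y | y < B ^ w.length}

omit hB in
lemma snoc_mul_add {k : ℕ} (S : ℕ) (a c : Fin k → ℕ) (α β : ℕ) :
    (fun i => (Fin.snoc a α : Fin (k + 1) → ℕ) i * S + (Fin.snoc c β : Fin (k + 1) → ℕ) i) =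
      (Fin.snoc (fun i => a i * S + c i) (α * S + β) : Fin (k + 1) → ℕ) := by
  funext i
  refine Fin.lastCases ?_ (fun j => ?_) i
  · simp
  · simp

/-- Types compose. -/
lemma tpdL_append {u v u' v' : List (Option Γ)} : ∀ (q : ℕ) {k : ℕ}
    {a c a' c' : Fin k → ℕ} (_ : ∀ i, c i < B ^ v.length) (_ : ∀ i, c' i < B ^ v'.length)
    (_ : tpd (domL B u) (codeL zs B u) q k a = tpd (domL B u') (codeL zs B u') q k a')
    (_ : tpd (domL B v) (codeL zs B v) q k c = tpd (domL B v') (codeL zs B v') q k c'),
    tpd (domL B (u ++ v)) (codeL zs B (u ++ v)) q k (fun i => a i * B ^ v.length + c i) =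
      tpd (domL B (u' ++ v')) (codeL zs B (u' ++ v')) q k
        (fun i => a' i * B ^ v'.length + c' i)
  | 0, _, _, _, _, _, hc, hc', h1, h0 => codeL_append hB hc hc' h1 h0
  | q + 1, k, a, c, a', c', hc, hc', h1, h0 => by
      have split : ∀ (x x' : List (Option Γ)) (y : ℕ), y < B ^ (x ++ x').length →
          y % B ^ x'.length < B ^ x'.length ∧ y / B ^ x'.length < B ^ x.length ∧
            y = y / B ^ x'.length * B ^ x'.length + y % B ^ x'.length := by
        intro x x' y hy
        rw [List.length_append, pow_add] at hy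
        refine ⟨Nat.mod_lt _ (by positivity), Nat.div_lt_of_lt_mul (by rwa [mul_comm]), ?_⟩
        exact (Nat.div_add_mod' y (B ^ x'.length)).symm
      have join : ∀ (x x' : List (Option Γ)) (α β : ℕ), α < B ^ x.length → β < B ^ x'.length →
          α * B ^ x'.length + β < B ^ (x ++ x').length := by
        intro x x' α β h1 h2
        rw [List.length_append, pow_add]
        exact (block_lt_iff h2).2 h1
      apply tpd_succ_eq
      · exact tpdL_append q hc hc' (tpd_fst h1) (tpd_fst h0)
      · intro y hy
        obtain ⟨s1, s2, s3⟩ := split u v y hy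
        obtain ⟨α, hα, hα'⟩ := tpd_forth h1 (y / B ^ v.length) s2
        obtain ⟨β, hβ, hβ'⟩ := tpd_forth h0 (y % B ^ v.length) s1
        refine ⟨α * B ^ v'.length + β, join u' v' α β hα hβ, ?_⟩
        have h3 := tpdL_append q (snoc_lt hc s1) (snoc_lt hc' hβ) hα' hβ'
        rw [snoc_mul_add, snoc_mul_add, ← s3] at h3
        exact h3
      · intro y hy
        obtain ⟨s1, s2, s3⟩ := split u' v' y hy
        obtain ⟨α, hα, hα'⟩ := tpd_forth h1.symm (y / B ^ v'.length) s2
        obtain ⟨β, hβ, hβ'⟩ := tpd_forth h0.symm (y % B ^ v'.length) s1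
        refine ⟨α * B ^ v.length + β, join u v α β hα hβ, ?_⟩
        have h3 := tpdL_append q (snoc_lt hc hβ) (snoc_lt hc' s1) hα'.symm hβ'.symm
        rw [snoc_mul_add, snoc_mul_add, ← s3] at h3
        exact h3

omit hB in
/-- The finite invariant of a marked line. -/
def thetaL (zs : List Γ) (B q : ℕ) (w : List (Option Γ)) : Ty (CodeL Γ) q 0 :=
  tpd (domL B w) (codeL zs B w) q 0 Fin.elim0

lemma thetaL_append {q : ℕ} {u v u' v' : List (Option Γ)}
    (h1 : thetaL zs B q u = thetaL zs B q u') (h0 : thetaL zs B q v = thetaL zs B q v') :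
    thetaL zs B q (u ++ v) = thetaL zs B q (u' ++ v') := by
  have h2 := tpdL_append hB (u := u) (v := v) (u' := u') (v' := v') q
    (a := Fin.elim0) (c := Fin.elim0) (a' := Fin.elim0) (c' := Fin.elim0)
    (fun i => i.elim0) (fun i => i.elim0) h1 h0
  have e1 : (fun i : Fin 0 => (Fin.elim0 i : ℕ) * B ^ v.length + (Fin.elim0 i : ℕ)) =
      Fin.elim0 := by funext i; exact i.elim0
  have e2 : (fun i : Fin 0 => (Fin.elim0 i : ℕ) * B ^ v'.length + (Fin.elim0 i : ℕ)) =
      Fin.elim0 := by funext i; exact i.elim0
  rw [e1, e2] at h2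
  exact h2

end

end AddInv
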