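import Pool.Agent.H27AI.Code

/-!
# The numbered structure of a marked line
-/

namespace AddInv

section

variable {A : Type} {b : ℕ}

/-- The numbered structure of the marked line `w`: the numbers below `nn B w`; the order
compares the flag and the kind of the label, then `rhoA`, then the number. -/
def strL (zs : List (A × Fin b)) (B : ℕ) (w : List (Option (A × Fin b))) : NumStr A where
  n := nn B w
  key := fun x => (labA zs B w x).elim 0 fun z => keyF z * B ^ w.length + rhoA B w x
  ltr := fun x => (labA zs B w x).map letF

end

end AddInv
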