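import Pool.Agent.H27AI.Comp
import Pool.Agent.H27AI.Str

/-!
# Truth in the structure of a marked line depends only on its type
-/

namespace AddInv

section

variable {Γ : Type} {zs : List Γ} {B : ℕ} (hB : 2 ≤ B) (hz : zs.length + 1 = B)

include hB hz

lemma labY_isSome {x : ℕ} (hx : x ≠ 0) : (labY zs B x).isSome := by
  unfold labY
  rw [if_neg hx]
  have h1 := ld_pos hB (x := x) (by omega)
  have h2 := ld_lt hB (x := x)
  rw [List.getElem?_eq_getElem (by omega)]
  rfl

lemma labR_isSome (g : Γ) (y : ℕ) : (labR zs B g y).isSome := by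
  unfold labR
  by_cases h : y = 0
  · rw [if_pos h]; rfl
  · rw [if_neg h, Option.isSome_map]
    exact labY_isSome hB hz h

lemma labA_isSome (w : List (Option Γ)) (x : ℕ) (hx : x < nn B w) :
    (labA zs B w x).isSome := by
  unfold labA
  rw [if_pos hx]
  obtain ⟨z, hz'⟩ := Option.isSome_iff_exists.1 (seg_isSome w x hx)
  rw [hz']
  exact labR_isSome hB hz z.1 z.2

end

section

variable {A : Type} {b : ℕ} {zs : List (A × Fin b)} {B : ℕ} (hB : 2 ≤ B)
  (hz : zs.length + 1 = B)

include hB hz

/-- Structures of marked lines of the same type satisfy the same formulas. -/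
lemma efL {w w' : List (Option (A × Fin b))} :
    ∀ {k : ℕ} (f : Fml A k) (q : ℕ) (_ : rk f ≤ q) (y y' : Fin k → ℕ)
      (_ : ∀ i, y i < nn B w) (_ : ∀ i, y' i < nn B w')
      (_ : tpd (domL B w) (codeL zs B w) q k y = tpd (domL B w') (codeL zs B w') q k y'),
      (SatM (strL zs B w) f y ↔ SatM (strL zs B w') f y')
  | _, .falsum, _, _, _, _, _, _, _ => Iff.rfl
  | _, .eq a c, q, _, y, y', _, _, h => by
      have hc := code_eq_of_tpd h
      exact iff_of_eq (cl_eq hc a c)
  | _, .lt a c, q, _, y, y', hy, hy', h => by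
      have hc := code_eq_of_tpd h
      have e1 := cl_labA hc a
      have e2 := cl_labA hc c
      have e3 : (rhoA B w (y a) < rhoA B w (y c)) ↔ (rhoA B w' (y' a) < rhoA B w' (y' c)) := by
        have := cl_rhoA hc a c
        simp only [hy a, hy c, hy' a, hy' c, true_and] at this
        exact iff_of_eq this
      have e4 : (rhoA B w (y c) < rhoA B w (y a)) ↔ (rhoA B w' (y' c) < rhoA B w' (y' a)) := by
        have := cl_rhoA hc c a
        simp only [hy a, hy c, hy' a, hy' c, true_and] at this
        exact iff_of_eq this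
      have e5 := cl_lt hc a c
      have l1 := rhoA_lt_pow hB w (y a) (hy a)
      have l2 := rhoA_lt_pow hB w (y c) (hy c)
      have l3 := rhoA_lt_pow hB w' (y' a) (hy' a)
      have l4 := rhoA_lt_pow hB w' (y' c) (hy' c)
      have key : ∀ (z z' : (A × Fin b) × Bool), labA zs B w (y a) = some z →
          labA zs B w (y c) = some z' →
          (SatM (strL zs B w) (.lt a c) y ↔
            (keyF z < keyF z' ∨ (keyF z = keyF z' ∧ (rhoA B w (y a) < rhoA B w (y c) ∨
              (¬ rhoA B w (y a) < rhoA B w (y c) ∧ ¬ rhoA B w (y c) < rhoA B w (y a) ∧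
                y a < y c))))) := by
        intro z z' hz hz'
        show ((labA zs B w (y a)).elim 0 _ < (labA zs B w (y c)).elim 0 _ ∨
          ((labA zs B w (y a)).elim 0 _ = (labA zs B w (y c)).elim 0 _ ∧ y a < y c)) ↔ _
        rw [hz, hz']
        simp only [Option.elim_some]
        rw [lt_aux l1 l2, eq_aux l1 l2]
        constructor
        · rintro ((h1 | ⟨h1, h2⟩) | ⟨⟨h1, h2⟩, h3⟩)
          · exact Or.inl h1
          · exact Or.inr ⟨h1, Or.inl h2⟩
          · exact Or.inr ⟨h1, Or.inr ⟨by omega, by omega, h3⟩⟩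
        · rintro (h1 | ⟨h1, h2 | ⟨h2, h3, h4⟩⟩)
          · exact Or.inl (Or.inl h1)
          · exact Or.inl (Or.inr ⟨h1, h2⟩)
          · exact Or.inr ⟨⟨h1, by omega⟩, h4⟩
      have key' : ∀ (z z' : (A × Fin b) × Bool), labA zs B w' (y' a) = some z →
          labA zs B w' (y' c) = some z' →
          (SatM (strL zs B w') (.lt a c) y' ↔
            (keyF z < keyF z' ∨ (keyF z = keyF z' ∧ (rhoA B w' (y' a) < rhoA B w' (y' c) ∨
              (¬ rhoA B w' (y' a) < rhoA B w' (y' c) ∧ ¬ rhoA B w' (y' c) < rhoA B w' (y' a) ∧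
                y' a < y' c))))) := by
        intro z z' hz hz'
        show ((labA zs B w' (y' a)).elim 0 _ < (labA zs B w' (y' c)).elim 0 _ ∨
          ((labA zs B w' (y' a)).elim 0 _ = (labA zs B w' (y' c)).elim 0 _ ∧ y' a < y' c)) ↔ _
        rw [hz, hz']
        simp only [Option.elim_some]
        rw [lt_aux l3 l4, eq_aux l3 l4]
        constructor
        · rintro ((h1 | ⟨h1, h2⟩) | ⟨⟨h1, h2⟩, h3⟩)
          · exact Or.inl h1
          · exact Or.inr ⟨h1, Or.inl h2⟩
          · exact Or.inr ⟨h1, Or.inr ⟨by omega, by omega, h3⟩⟩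
        · rintro (h1 | ⟨h1, h2 | ⟨h2, h3, h4⟩⟩)
          · exact Or.inl (Or.inl h1)
          · exact Or.inl (Or.inr ⟨h1, h2⟩)
          · exact Or.inr ⟨⟨h1, by omega⟩, h4⟩
      obtain ⟨z, hza⟩ := Option.isSome_iff_exists.1 (labA_isSome hB hz w (y a) (hy a))
      obtain ⟨z', hzc⟩ := Option.isSome_iff_exists.1 (labA_isSome hB hz w (y c) (hy c))
      rw [key z z' hza hzc, key' z z' (by rw [← e1]; exact hza) (by rw [← e2]; exact hzc), e3,
        e4, e5]
  | _, .letter a i, q, _, y, y', _, _, h => by
      have hc := code_eq_of_tpd h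
      show (labA zs B w (y i)).map letF = some a ↔ (labA zs B w' (y' i)).map letF = some a
      rw [cl_labA hc]
  | _, .add a c d, q, _, y, y', _, _, h => by
      have hc := code_eq_of_tpd h
      have h1 := cl_add hc (some a) (some c) (some d) true false
      simp only [val, Option.elim, Bool.toNat_true, Bool.toNat_false, zero_mul, add_zero] at h1
      exact iff_of_eq h1
  | _, .imp f g, q, hq, y, y', hy, hy', h => by
      have hf : rk f ≤ q := le_trans (le_max_left _ _) hq
      have hg : rk g ≤ q := le_trans (le_max_right _ _) hq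
      have h1 := efL f q hf y y' hy hy' h
      have h2 := efL g q hg y y' hy hy' h
      show (SatM _ f _ → SatM _ g _) ↔ (SatM _ f _ → SatM _ g _)
      rw [h1, h2]
  | k, .all f, q, hq, y, y', hy, hy', h => by
      have hq1 : rk f + 1 ≤ q := hq
      obtain ⟨q', rfl⟩ : ∃ q', q = q' + 1 := ⟨q - 1, by omega⟩
      have hf : rk f ≤ q' := by omega
      show (∀ p, p < nn B w → SatM _ f (Fin.snoc y p)) ↔
        (∀ p, p < nn B w' → SatM _ f (Fin.snoc y' p))
      have n1 := nn_lt hB w
      have n2 := nn_lt hB w'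
      constructor
      · intro hall p hp
        obtain ⟨p', hp', hty⟩ := tpd_forth h.symm p (lt_trans hp n2 : p < _)
        have hz := cl_ltn (code_eq_of_tpd hty) (Fin.last k)
        simp only [Fin.snoc_last] at hz
        have c4 : p' < nn B w := by rw [← hz]; exact hp
        exact (efL f q' hf _ _ (snoc_lt hy c4) (snoc_lt hy' hp) hty.symm).1 (hall p' c4)
      · intro hall p hp
        obtain ⟨p', hp', hty⟩ := tpd_forth h p (lt_trans hp n1 : p < _)
        have hz := cl_ltn (code_eq_of_tpd hty) (Fin.last k)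
        simp only [Fin.snoc_last] at hz
        have c4 : p' < nn B w' := by rw [← hz]; exact hp
        exact (efL f q' hf _ _ (snoc_lt hy hp) (snoc_lt hy' c4) hty).2 (hall p' c4)

/-- Sentences. -/
lemma efL_sentence {w w' : List (Option (A × Fin b))} (f : Fml A 0)
    (h : thetaL zs B (rk f) w = thetaL zs B (rk f) w') :
    SatM (strL zs B w) f Fin.elim0 ↔ SatM (strL zs B w') f Fin.elim0 :=
  efL hB hz f (rk f) le_rfl _ _ (fun i => i.elim0) (fun i => i.elim0) h

end

end AddInv
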