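import Mathlib

/-!
# Regular languages: concatenation, finite unions, inverse images of finite congruences, Ramsey
-/

namespace Pool.Agent.H27AI

variable {A : Type*}

/-- A set of words as a language. -/
def lang (S : Set (List A)) : Language A := S

theorem mem_lang {S : Set (List A)} {w : List A} : w ∈ lang S ↔ w ∈ S := Iff.rfl

/-- A language that is a union of classes of a right congruence of finite index is regular. -/
theorem regular_of_inv {γ : Type*} [Finite γ] (g : List A → γ)
    (hg : ∀ u v w : List A, g u = g v → g (u ++ w) = g (v ++ w)) (S : Set γ) :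
    Language.IsRegular (lang {w | g w ∈ S}) := by
  apply Language.IsRegular.of_finite_range_leftQuotient
  have h1 : ∀ u v : List A, g u = g v →
      Language.leftQuotient (lang {w | g w ∈ S}) u =
        Language.leftQuotient (lang {w | g w ∈ S}) v := by
    intro u v h
    ext y
    rw [Language.mem_leftQuotient, Language.mem_leftQuotient]
    show g (u ++ y) ∈ S ↔ g (v ++ y) ∈ S
    rw [hg u v y h]
  classical
  let F : γ → Language A := fun c =>
    if h : ∃ u, g u = c then Language.leftQuotient (lang {w | g w ∈ S}) h.choose else 0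
  apply (Set.finite_range F).subset
  rintro _ ⟨u, rfl⟩
  refine ⟨g u, ?_⟩
  have h : ∃ v, g v = g u := ⟨u, rfl⟩
  show (if h : ∃ v, g v = g u then _ else _) = _
  rw [dif_pos h]
  exact h1 _ _ h.choose_spec

/-- The concatenation of two regular languages is regular. -/
theorem regular_mul {P Q : Language A} (hP : P.IsRegular) (hQ : Q.IsRegular) :
    (P * Q).IsRegular := by
  apply Language.IsRegular.of_finite_range_leftQuotient
  have hP' := hP.finite_range_leftQuotient
  have hQ' := hQ.finite_range_leftQuotient
  let F : Language A × Set (Language A) → Language A :=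
    fun p => p.1 * Q + lang {y | ∃ R ∈ p.2, y ∈ R}
  have hfin : (F '' (Set.range P.leftQuotient ×ˢ (Set.powerset (Set.range Q.leftQuotient)))).Finite :=
    (hP'.prod hQ'.finite_subsets).image F
  apply hfin.subset
  rintro _ ⟨w, rfl⟩
  refine ⟨(P.leftQuotient w, {R | ∃ u v, w = u ++ v ∧ u ∈ P ∧ R = Q.leftQuotient v}),
    ⟨⟨w, rfl⟩, ?_⟩, ?_⟩
  · rintro R ⟨u, v, _, _, rfl⟩
    exact ⟨v, rfl⟩
  · ext y
    rw [Language.mem_leftQuotient]
    show y ∈ P.leftQuotient w * Q + lang {y | ∃ R ∈ {R | ∃ u v, w = u ++ v ∧ u ∈ P ∧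
      R = Q.leftQuotient v}, y ∈ R} ↔ _
    rw [Language.mem_add, Language.mem_mul, Language.mem_mul]
    constructor
    · rintro (⟨a, ha, b, hb, rfl⟩ | ⟨R, ⟨u, v, rfl, hu, rfl⟩, hy⟩)
      · exact ⟨w ++ a, ha, b, hb, by simp⟩
      · exact ⟨u, hu, v ++ y, hy, by simp⟩
    · rintro ⟨a, ha, b, hb, hab⟩
      rcases List.append_eq_append_iff.1 hab with ⟨c, hc1, hc2⟩ | ⟨c, hc1, hc2⟩
      · right
        refine ⟨Q.leftQuotient c, ⟨a, c, hc1, ha, rfl⟩, ?_⟩
        rw [Language.mem_leftQuotient, ← hc2]
        exact hb
      · left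
        refine ⟨c, ?_, b, hb, hc2.symm⟩
        rw [Language.mem_leftQuotient, ← hc1]
        exact ha

/-- A finite union of regular languages is regular. -/
theorem regular_iUnion {ι : Type*} [Finite ι] (P : ι → Language A)
    (hP : ∀ i, (P i).IsRegular) (S : Set ι) :
    Language.IsRegular (lang {w | ∃ i ∈ S, w ∈ P i}) := by
  have hS : S.Finite := Set.toFinite S
  induction S, hS using Set.Finite.induction_on with
  | empty =>
    have : lang {w | ∃ i ∈ (∅ : Set ι), w ∈ P i} =
        lang {w | (fun _ : List A => ()) w ∈ (∅ : Set Unit)} := by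
      ext w
      show (∃ i ∈ (∅ : Set ι), w ∈ P i) ↔ () ∈ (∅ : Set Unit)
      simp
    rw [this]
    exact regular_of_inv (fun _ => ()) (fun _ _ _ _ => rfl) ∅
  | @insert a S ha hS ih =>
    have : lang {w | ∃ i ∈ insert a S, w ∈ P i} = P a + lang {w | ∃ i ∈ S, w ∈ P i} := by
      ext w
      rw [Language.mem_add]
      show (∃ i ∈ insert a S, w ∈ P i) ↔ w ∈ P a ∨ (∃ i ∈ S, w ∈ P i)
      simp
    rw [this]
    exact (hP a).add ih

/-- A finite language is regular. -/
theorem regular_of_finite {P : Language A} (hP : Set.Finite (P : Set (List A))) :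
    P.IsRegular := by
  apply Language.IsRegular.of_finite_range_leftQuotient
  have h1 : (P : Set (List A)).Finite := hP
  let suf : Set (List A) := ⋃ w ∈ (P : Set (List A)), {v | v ∈ w.tails}
  have h2 : suf.Finite := by
    apply Set.Finite.biUnion h1
    intro w _
    exact List.finite_toSet w.tails
  apply h2.finite_subsets.subset
  rintro _ ⟨u, rfl⟩
  intro y hy
  have hy' : u ++ y ∈ P := hy
  refine Set.mem_biUnion (x := u ++ y) hy' ?_
  show y ∈ (u ++ y).tails
  rw [List.mem_tails]
  exact List.suffix_append u y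

/-- Ramsey for consecutive factors: every long word has two consecutive nonempty factors `z₁`,
`z₂` such that `z₁`, `z₂` and `z₁ z₂` have the same colour. -/
theorem exists_factors {γ : Type*} [Finite γ] (g : List A → γ) :
    ∃ R : ℕ, ∀ w : List A, R ≤ w.length → ∃ c z₁ z₂ y : List A, w = c ++ z₁ ++ z₂ ++ y ∧
      z₁ ≠ [] ∧ z₂ ≠ [] ∧ g z₁ = g z₂ ∧ g (z₁ ++ z₂) = g z₁ := by
  classical
  have := Fintype.ofFinite γ
  -- sets of positions that are homogeneous from the left
  have key : ∀ (n : ℕ), ∃ R : ℕ, ∀ (col : ℕ → ℕ → γ) (s : Finset ℕ), R ≤ s.card →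
      ∃ (l : ℕ → ℕ) (e : ℕ → γ), (∀ a b, a < b → b < n → l a < l b ∧ col (l a) (l b) = e a) ∧
        ∀ a, a < n → l a ∈ s := by
    intro n
    induction n with
    | zero => exact ⟨0, fun col s _ => ⟨fun _ => 0, fun a => col 0 0, by omega, by omega⟩⟩
    | succ n ih =>
      obtain ⟨R, hR⟩ := ih
      refine ⟨Fintype.card γ * R + 2, ?_⟩
      intro col s hs
      have hne : s.Nonempty := Finset.card_pos.1 (by omega)
      set m := s.min' hne with hm
      have hms : m ∈ s := Finset.min'_mem s hne
      have hcard : (s.erase m).card = s.card - 1 := Finset.card_erase_of_mem hms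
      obtain ⟨e0, _, he0⟩ := Finset.exists_lt_card_fiber_of_mul_lt_card_of_maps_to
        (s := s.erase m) (t := Finset.univ) (f := fun x => col m x) (n := R)
        (fun _ _ => Finset.mem_univ _) (by rw [Finset.card_univ, hcard]; omega)
      obtain ⟨l, e, h1, h2⟩ := hR col ({x ∈ s.erase m | col m x = e0}) he0.le
      refine ⟨fun a => Nat.casesOn a m l, fun a => Nat.casesOn a e0 e, ?_, ?_⟩
      · intro a b hab hb
        rcases b with _ | b
        · omega
        · have hb2 := h2 b (by omega)
          rw [Finset.mem_filter, Finset.mem_erase] at hb2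
          rcases a with _ | a
          · refine ⟨?_, hb2.2⟩
            exact lt_of_le_of_ne (Finset.min'_le s _ hb2.1.2) (fun h => hb2.1.1 h.symm)
          · exact h1 a b (by omega) (by omega)
      · intro a ha
        rcases a with _ | a
        · exact hms
        · have hb2 := h2 a (by omega)
          rw [Finset.mem_filter, Finset.mem_erase] at hb2
          exact hb2.1.2
  obtain ⟨R, hR⟩ := key (Fintype.card γ + 2)
  refine ⟨R, ?_⟩
  intro w hw
  let col : ℕ → ℕ → γ := fun i j => g ((w.take j).drop i)
  obtain ⟨l, e, h1, h2⟩ := hR col (Finset.range (w.length + 1)) (by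
    rw [Finset.card_range]; omega)
  obtain ⟨a, b, hne, heq⟩ := Fintype.exists_ne_map_eq_of_card_lt
    (fun a : Fin (Fintype.card γ + 1) => e a) (by rw [Fintype.card_fin]; omega)
  obtain ⟨a, b, hab, hb, hee⟩ : ∃ a b : ℕ, a < b ∧ b < Fintype.card γ + 1 ∧ e a = e b := by
    rcases lt_or_gt_of_ne hne with h | h
    · exact ⟨a, b, h, b.2, heq⟩
    · exact ⟨b, a, h, a.2, heq.symm⟩
  obtain ⟨h3, h4⟩ := h1 a b hab (by omega)
  obtain ⟨h5, h6⟩ := h1 b (b + 1) (by omega) (by omega)
  obtain ⟨h7, h8⟩ := h1 a (b + 1) (by omega) (by omega)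
  have h9 := h2 (b + 1) (by omega)
  rw [Finset.mem_range] at h9
  set i := l a
  set j := l b
  set k := l (b + 1)
  have e1 : (w.take k).drop i = (w.take j).drop i ++ (w.take k).drop j := by
    have h10 : w.take k = w.take j ++ (w.take k).drop j := by
      conv_lhs => rw [← List.take_append_drop j (w.take k)]
      rw [List.take_take, min_eq_left h5.le]
    conv_lhs => rw [h10]
    rw [List.drop_append_of_le_length]
    rw [List.length_take]; omega
  refine ⟨w.take i, (w.take j).drop i, (w.take k).drop j, w.drop k, ?_, ?_, ?_, ?_, ?_⟩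
  · have e2 : w.take k = w.take i ++ (w.take k).drop i := by
      conv_lhs => rw [← List.take_append_drop i (w.take k)]
      rw [List.take_take, min_eq_left h7.le]
    conv_lhs => rw [← List.take_append_drop k w, e2, e1]
    simp
  · intro h
    have := congrArg List.length h
    simp only [List.length_drop, List.length_take, List.length_nil] at this
    omega
  · intro h
    have := congrArg List.length h
    simp only [List.length_drop, List.length_take, List.length_nil] at this
    omega
  · show col i j = col j k
    rw [h4, h6, hee]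
  · rw [← e1]
    show col i k = col i j
    rw [h4, h8]

end Pool.Agent.H27AI
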