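import Pool.Agent.H66.AI.Sparse
import Pool.Agent.H27AI.RegLemmas

/-!
# Few powers, uniformly in the bases: the mixing argument
-/

namespace AddInv

open Pool.Agent.H27AI

section

variable {A : Type}

/-- The `i`-th power of a word. -/
abbrev pw (Z : List A) (i : ℕ) : List A := (List.replicate i Z).flatten

lemma pw_succ (Z : List A) (i : ℕ) : pw Z (i + 1) = Z ++ pw Z i := by
  simp [pw, List.replicate_succ]

lemma pw_add (Z : List A) (i j : ℕ) : pw Z (i + j) = pw Z i ++ pw Z j := by
  show (List.replicate (i + j) Z).flatten = _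
  rw [List.replicate_add, List.flatten_append]

lemma pw_mul (Z : List A) (d i : ℕ) : pw (pw Z d) i = pw Z (d * i) := by
  induction i with
  | zero => simp [pw]
  | succ i ih => rw [pw_succ, ih, Nat.mul_succ, Nat.add_comm, pw_add]

lemma length_pw (Z : List A) (i : ℕ) : (pw Z i).length = i * Z.length := length_pow Z i

lemma pw_ne_nil {Z : List A} (hZ : Z ≠ []) {i : ℕ} (hi : 0 < i) : pw Z i ≠ [] := by
  intro h
  have h1 := congrArg List.length h
  rw [length_pw, List.length_nil] at h1
  have h2 : 0 < Z.length := List.length_pos_iff.2 hZ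
  have h3 := Nat.mul_pos hi h2
  omega

lemma split_power (Z : List A) : ∀ (k : ℕ) (u c : List A), pw Z k = u ++ c →
    ∃ (a b : ℕ) (Z' Z'' : List A), u = pw Z a ++ Z' ∧ c = Z'' ++ pw Z b ∧
      Z'.length + Z''.length ≤ Z.length := by
  intro k
  induction k with
  | zero =>
    intro u c h
    have h0 : u ++ c = [] := by rw [← h]; rfl
    rw [List.append_eq_nil_iff] at h0
    obtain ⟨rfl, rfl⟩ := h0
    exact ⟨0, 0, [], [], rfl, rfl, by simp⟩
  | succ k ih =>
    intro u c h
    rw [pw_succ] at h
    rcases List.append_eq_append_iff.1 h with ⟨d, h1, h2⟩ | ⟨d, h1, h2⟩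
    · obtain ⟨a, b, Z', Z'', e1, e2, e3⟩ := ih d c h2
      refine ⟨a + 1, b, Z', Z'', ?_, e2, e3⟩
      rw [h1, e1, pw_succ, List.append_assoc]
    · refine ⟨0, k, u, d, rfl, h2, ?_⟩
      rw [h1, List.length_append]

lemma cost_cons (p : List A × ℕ) (l : List (List A × ℕ)) : cost (p :: l) = p.1.length + cost l := by
  unfold cost
  rw [List.map_cons, List.sum_cons]

lemma cost_append' (l l' : List (List A × ℕ)) : cost (l ++ l') = cost l + cost l' := by
  unfold cost
  rw [List.map_append, List.sum_append]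

lemma cost_nil' : cost ([] : List (List A × ℕ)) = 0 := rfl

lemma expand_nil' : expand ([] : List (List A × ℕ)) = [] := rfl

lemma expand_single (Z : List A) (v : ℕ) : expand [(Z, v)] = pw Z v := by
  rw [expand_cons, expand_nil', List.append_nil]

lemma expand_one (x : List A) : expand [(x, 1)] = x := by
  rw [expand_single]; simp [pw]

lemma split_list : ∀ (l : List (List A × ℕ)) (u v : List A), expand l = u ++ v →
    ∃ l₁ l₂, expand l₁ = u ∧ expand l₂ = v ∧ cost l₁ + cost l₂ ≤ 3 * cost l := by
  intro l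
  induction l with
  | nil =>
    intro u v h
    rw [expand_nil'] at h
    have h0 : u ++ v = [] := h.symm
    rw [List.append_eq_nil_iff] at h0
    obtain ⟨rfl, rfl⟩ := h0
    exact ⟨[], [], rfl, rfl, by simp [cost_nil']⟩
  | cons p l ih =>
    obtain ⟨Z, k⟩ := p
    intro u v h
    rw [expand_cons] at h
    rcases List.append_eq_append_iff.1 h with ⟨d, h1, h2⟩ | ⟨d, h1, h2⟩
    · obtain ⟨l₁, l₂, e1, e2, e3⟩ := ih d v h2
      refine ⟨(Z, k) :: l₁, l₂, ?_, e2, ?_⟩
      · rw [expand_cons, e1, h1]
      · rw [cost_cons, cost_cons]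
        dsimp only
        omega
    · obtain ⟨a, b, Z', Z'', e1, e2, e3⟩ := split_power Z k u d h1
      refine ⟨[(Z, a), (Z', 1)], (Z'', 1) :: (Z, b) :: l, ?_, ?_, ?_⟩
      · rw [expand_cons, expand_one, e1]
      · rw [expand_cons, expand_cons, h2, e2]
        simp
      · rw [cost_cons, cost_cons, cost_cons, cost_cons, cost_cons, cost_nil']
        dsimp only
        omega

lemma exists_big (C : ℕ) (l : List (List A × ℕ)) (h0 : expand l ≠ [])
    (h : C * cost l ≤ (expand l).length) : ∃ p ∈ l, p.1 ≠ [] ∧ C ≤ p.2 := by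
  by_contra hcon
  push Not at hcon
  have key : ∀ l : List (List A × ℕ), (∀ p ∈ l, p.1 ≠ [] → p.2 < C) →
      (expand l).length + cost l ≤ C * cost l := by
    intro l
    induction l with
    | nil => intro _; simp [expand_nil', cost_nil']
    | cons p l ih =>
      intro hl
      have h1 := ih fun q hq => hl q (List.mem_cons_of_mem _ hq)
      have h2 := hl p List.mem_cons_self
      rw [expand_cons, cost_cons, List.length_append, length_pow, Nat.mul_add]
      have h3 : p.2 * p.1.length + p.1.length ≤ C * p.1.length := by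
        by_cases hp : p.1 = []
        · rw [hp]; simp
        · have h4 := h2 hp
          have h5 : (p.2 + 1) * p.1.length ≤ C * p.1.length := Nat.mul_le_mul_right _ h4
          rw [Nat.add_mul, Nat.one_mul] at h5
          exact h5
      omega
  have h1 := key l hcon
  have h2 : (expand l).length = 0 := by
    have h3 : cost l = 0 := by omega
    rw [h3] at h1
    omega
  exact h0 (List.length_eq_zero_iff.1 h2)

end

/-- Membership of `x Z^(D i) y` in `L` for all large `i`. -/
def Lim {A : Type} (L : Language A) (D : ℕ) (x Z y : List A) : Prop :=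
  ∃ N, ∀ i, N ≤ i → x ++ pw Z (D * i) ++ y ∈ L

section

variable {A : Type} {L : Language A} {C D : ℕ}

/-- Pumping of one power in steps of `D`. -/
def Pmp (L : Language A) (C D : ℕ) : Prop :=
  ∀ (l₁ l₂ : List (List A × ℕ)) (Z : List A) (v : ℕ),
    C * (cost l₁ + Z.length + cost l₂) ≤
      (expand l₁).length + v * Z.length + (expand l₂).length → C ≤ v →
    (expand l₁ ++ pw Z v ++ expand l₂ ∈ L ↔ expand l₁ ++ pw Z (v + D) ++ expand l₂ ∈ L)

lemma pump_many (hP : Pmp L C D) (l₁ l₂ : List (List A × ℕ)) (Z : List A) (v : ℕ)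
    (h1 : C * (cost l₁ + Z.length + cost l₂) ≤
      (expand l₁).length + v * Z.length + (expand l₂).length) (h2 : C ≤ v) (j : ℕ) :
    expand l₁ ++ pw Z v ++ expand l₂ ∈ L ↔ expand l₁ ++ pw Z (v + D * j) ++ expand l₂ ∈ L := by
  induction j with
  | zero => rw [Nat.mul_zero, Nat.add_zero]
  | succ j ih =>
    rw [ih, Nat.mul_succ, ← Nat.add_assoc]
    apply hP
    · refine le_trans h1 ?_
      have : v * Z.length ≤ (v + D * j) * Z.length := Nat.mul_le_mul_right _ (Nat.le_add_right _ _)
      omega
    · omega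

/-- Eventual constancy. -/
lemma lim_iff (hP : Pmp L C D) (hD : 0 < D) (x Z y : List A) (hZ : Z ≠ []) :
    ∃ N, ∀ i, N ≤ i → (x ++ pw Z (D * i) ++ y ∈ L ↔ Lim L D x Z y) := by
  have hZ' : 0 < Z.length := List.length_pos_iff.2 hZ
  set N := C * (x.length + Z.length + y.length) + C with hN
  have h1 : ∀ j, (x ++ pw Z (D * N) ++ y ∈ L ↔ x ++ pw Z (D * (N + j)) ++ y ∈ L) := by
    intro j
    have hDN : N ≤ D * N := Nat.le_mul_of_pos_left _ hD
    have hDN' : D * N ≤ D * N * Z.length := Nat.le_mul_of_pos_right _ hZ'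
    have h := pump_many hP [(x, 1)] [(y, 1)] Z (D * N) (by
      rw [expand_one, expand_one, cost_cons, cost_cons, cost_nil']
      dsimp only
      rw [Nat.add_zero, Nat.add_zero]
      omega) (by omega) j
    rw [expand_one, expand_one, ← Nat.mul_add] at h
    exact h
  refine ⟨N, ?_⟩
  intro i hi
  have h2 : ∀ i, N ≤ i → (x ++ pw Z (D * N) ++ y ∈ L ↔ x ++ pw Z (D * i) ++ y ∈ L) := by
    intro i hi
    have h := h1 (i - N)
    rw [Nat.add_sub_cancel' hi] at h
    exact h
  constructor
  · intro h
    exact ⟨N, fun k hk => (h2 k hk).1 ((h2 i hi).2 h)⟩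
  · rintro ⟨M, hM⟩
    exact (h2 i hi).1 ((h2 (max N M) (le_max_left _ _)).2 (hM _ (le_max_right _ _)))

lemma shift_right (x Z y : List A) (j : ℕ) :
    Lim L D x Z (pw Z (D * j) ++ y) ↔ Lim L D x Z y := by
  have key : ∀ i, x ++ pw Z (D * i) ++ (pw Z (D * j) ++ y) = x ++ pw Z (D * (i + j)) ++ y := by
    intro i
    rw [Nat.mul_add, pw_add]
    simp
  constructor
  · rintro ⟨N, hN⟩
    refine ⟨N + j, fun i hi => ?_⟩
    have h := hN (i - j) (by omega)
    rw [key, Nat.sub_add_cancel (by omega)] at h
    exact h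
  · rintro ⟨N, hN⟩
    refine ⟨N, fun i hi => ?_⟩
    rw [key]
    exact hN _ (by omega)

lemma shift_left (x Z y : List A) (j : ℕ) :
    Lim L D (x ++ pw Z (D * j)) Z y ↔ Lim L D x Z y := by
  have key : ∀ i, x ++ pw Z (D * j) ++ pw Z (D * i) ++ y = x ++ pw Z (D * (j + i)) ++ y := by
    intro i
    rw [Nat.mul_add, pw_add]
    simp
  constructor
  · rintro ⟨N, hN⟩
    refine ⟨N + j, fun i hi => ?_⟩
    have h := hN (i - j) (by omega)
    rw [key, Nat.add_sub_cancel' (by omega)] at h
    exact h
  · rintro ⟨N, hN⟩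
    refine ⟨N, fun i hi => ?_⟩
    rw [key]
    exact hN _ (by omega)

/-- Two large powers: the order of the limits does not matter. -/
lemma mix_swap (hP : Pmp L C D) (hD : 0 < D) (x Z y Z' z : List A) (hZ : Z ≠ []) (hZ' : Z' ≠ []) :
    ∃ N, ∀ i, N ≤ i → ∀ j, N ≤ j →
      (Lim L D x Z (y ++ pw Z' (D * j) ++ z) ↔ Lim L D (x ++ pw Z (D * i) ++ y) Z' z) := by
  have hZ0 : 0 < Z.length := List.length_pos_iff.2 hZ
  have hZ0' : 0 < Z'.length := List.length_pos_iff.2 hZ'
  set N := C * (x.length + Z.length + y.length + Z'.length + z.length) + C with hN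
  have big : ∀ i, N ≤ i → ∀ Y : List A, 0 < Y.length → N ≤ D * i * Y.length := by
    intro i hi Y hY
    calc N ≤ i := hi
      _ ≤ D * i := Nat.le_mul_of_pos_left _ hD
      _ ≤ D * i * Y.length := Nat.le_mul_of_pos_right _ hY
  have bigD : ∀ i, N ≤ i → N ≤ D * i := fun i hi => le_trans hi (Nat.le_mul_of_pos_left _ hD)
  let val : ℕ → ℕ → Prop := fun i j => x ++ pw Z (D * i) ++ y ++ pw Z' (D * j) ++ z ∈ L
  have hi1 : ∀ i, N ≤ i → ∀ j, ∀ k, (val i j ↔ val (i + k) j) := by
    intro i hi j k
    have h := pump_many hP [(x, 1)] [(y, 1), (Z', D * j), (z, 1)] Z (D * i) (by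
      rw [expand_one, cost_cons, cost_cons, cost_cons, cost_cons, cost_nil']
      dsimp only
      have := big i hi Z hZ0
      rw [Nat.add_zero, Nat.add_zero]
      have e : x.length + Z.length + (y.length + (Z'.length + z.length)) =
        x.length + Z.length + y.length + Z'.length + z.length := by ring
      rw [e]
      omega) (by have := bigD i hi; omega) k
    rw [expand_one, expand_cons, expand_cons, expand_one, ← Nat.mul_add] at h
    have e1 : ∀ i, x ++ pw Z (D * i) ++ ((List.replicate (y, 1).2 (y, 1).1).flatten ++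
        ((List.replicate (Z', D * j).2 (Z', D * j).1).flatten ++ z)) =
        x ++ pw Z (D * i) ++ y ++ pw Z' (D * j) ++ z := by
      intro i; simp [pw]
    rw [e1, e1] at h
    exact h
  have hj1 : ∀ i, ∀ j, N ≤ j → ∀ k, (val i j ↔ val i (j + k)) := by
    intro i j hj k
    have h := pump_many hP [(x, 1), (Z, D * i), (y, 1)] [(z, 1)] Z' (D * j) (by
      rw [expand_one, cost_cons, cost_cons, cost_cons, cost_cons, cost_nil']
      dsimp only
      have := big j hj Z' hZ0'
      rw [Nat.add_zero, Nat.add_zero]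
      have e : x.length + (Z.length + y.length) + Z'.length + z.length =
        x.length + Z.length + y.length + Z'.length + z.length := by ring
      rw [e]
      omega) (by have := bigD j hj; omega) k
    rw [expand_one, expand_cons, expand_cons, expand_one, ← Nat.mul_add] at h
    have e1 : ∀ j, ((List.replicate (x, 1).2 (x, 1).1).flatten ++
        ((List.replicate (Z, D * i).2 (Z, D * i).1).flatten ++ y)) ++ pw Z' (D * j) ++ z =
        x ++ pw Z (D * i) ++ y ++ pw Z' (D * j) ++ z := by
      intro j; simp [pw]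
    rw [e1, e1] at h
    exact h
  have hall : ∀ i, N ≤ i → ∀ j, N ≤ j → (val i j ↔ val N N) := by
    intro i hi j hj
    have h1 := hi1 N le_rfl j (i - N)
    rw [Nat.add_sub_cancel' hi] at h1
    have h2 := hj1 N N le_rfl (j - N)
    rw [Nat.add_sub_cancel' hj] at h2
    exact h1.symm.trans h2.symm
  refine ⟨N, ?_⟩
  intro i hi j hj
  have e2 : ∀ k, x ++ pw Z (D * k) ++ (y ++ pw Z' (D * j) ++ z) =
      x ++ pw Z (D * k) ++ y ++ pw Z' (D * j) ++ z := by
    intro k; simp
  constructor
  · rintro ⟨M, hM⟩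
    refine ⟨N, fun k hk => ?_⟩
    have h := hM (max M N) (le_max_left _ _)
    rw [e2] at h
    exact (hall i hi k hk).2 ((hall (max M N) (le_max_right _ _) j hj).1 h)
  · rintro ⟨M, hM⟩
    refine ⟨N, fun k hk => ?_⟩
    have h := hM (max M N) (le_max_left _ _)
    rw [e2]
    exact (hall k hk j hj).2 ((hall i hi (max M N) (le_max_right _ _)).1 h)

/-- A power with a fixed exponent `v ≥ C` can be pumped next to a very large power. -/
lemma pump_desc_left (hP : Pmp L C D) (hD : 0 < D) (x Z u e q : List A) (v : ℕ) (hv : C ≤ v)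
    (he : e ≠ []) : ∃ N, ∀ k, N ≤ k → ∀ j,
      (x ++ pw Z v ++ u ++ pw e (D * k) ++ q ∈ L ↔
        x ++ pw Z (v + D * j) ++ u ++ pw e (D * k) ++ q ∈ L) := by
  have he0 : 0 < e.length := List.length_pos_iff.2 he
  refine ⟨C * (x.length + Z.length + u.length + e.length + q.length), ?_⟩
  intro k hk j
  have h := pump_many hP [(x, 1)] [(u, 1), (e, D * k), (q, 1)] Z v (by
      rw [expand_one, expand_cons, expand_cons, expand_one, cost_cons, cost_cons, cost_cons,
        cost_cons, cost_nil', List.length_append, List.length_append]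
      dsimp only
      rw [length_pow, length_pow]
      have h1 : k ≤ D * k * e.length :=
        le_trans (Nat.le_mul_of_pos_left _ hD) (Nat.le_mul_of_pos_right _ he0)
      rw [Nat.add_zero, Nat.add_zero]
      have e : x.length + Z.length + (u.length + (e.length + q.length)) =
        x.length + Z.length + u.length + e.length + q.length := by ring
      rw [e]
      omega) hv j
  rw [expand_one, expand_cons, expand_cons, expand_one] at h
  have e1 : ∀ Y : List A, x ++ Y ++ ((List.replicate (u, 1).2 (u, 1).1).flatten ++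
      ((List.replicate (e, D * k).2 (e, D * k).1).flatten ++ q)) =
      x ++ Y ++ u ++ pw e (D * k) ++ q := by
    intro Y; simp [pw]
  rw [e1, e1] at h
  exact h

lemma pump_desc_right (hP : Pmp L C D) (hD : 0 < D) (p e u Z y : List A) (v : ℕ) (hv : C ≤ v)
    (he : e ≠ []) : ∃ N, ∀ k, N ≤ k → ∀ j,
      (p ++ pw e (D * k) ++ u ++ pw Z v ++ y ∈ L ↔
        p ++ pw e (D * k) ++ u ++ pw Z (v + D * j) ++ y ∈ L) := by
  have he0 : 0 < e.length := List.length_pos_iff.2 he
  refine ⟨C * (p.length + e.length + u.length + Z.length + y.length), ?_⟩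
  intro k hk j
  have h := pump_many hP [(p, 1), (e, D * k), (u, 1)] [(y, 1)] Z v (by
      rw [expand_one, expand_cons, expand_cons, expand_one, cost_cons, cost_cons, cost_cons,
        cost_cons, cost_nil', List.length_append, List.length_append]
      dsimp only
      rw [length_pow, length_pow]
      have h1 : k ≤ D * k * e.length :=
        le_trans (Nat.le_mul_of_pos_left _ hD) (Nat.le_mul_of_pos_right _ he0)
      rw [Nat.add_zero, Nat.add_zero]
      have e : p.length + (e.length + u.length) + Z.length + y.length =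
        p.length + e.length + u.length + Z.length + y.length := by ring
      rw [e]
      omega) hv j
  rw [expand_one, expand_cons, expand_cons, expand_one] at h
  have e1 : ∀ Y : List A, ((List.replicate (p, 1).2 (p, 1).1).flatten ++
      ((List.replicate (e, D * k).2 (e, D * k).1).flatten ++ u)) ++ Y ++ y =
      p ++ pw e (D * k) ++ u ++ Y ++ y := by
    intro Y; simp [pw]
  rw [e1, e1] at h
  exact h

end

section

variable {A : Type} {L : Language A} {C D : ℕ} {M : Type*} {h : List A → M}

/-- `h` is a congruence. -/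
def Cong (h : List A → M) : Prop :=
  ∀ u v u' v' : List A, h u = h u' → h v = h v' → h (u ++ v) = h (u' ++ v')

/-- The limits depend only on the classes. -/
def LimC (L : Language A) (D : ℕ) (h : List A → M) : Prop :=
  ∀ x x' y y' Z : List A, Z ≠ [] → x ++ y ≠ [] → x' ++ y' ≠ [] → h x = h x' → h y = h y' →
    (Lim L D x Z y ↔ Lim L D x' Z y')

lemma cong_pw (hh : Cong h) {Z Z' : List A} (he : h Z = h Z') (i : ℕ) :
    h (pw Z i) = h (pw Z' i) := by
  induction i with
  | zero => rfl
  | succ i ih => rw [pw_succ, pw_succ]; exact hh _ _ _ _ he ih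

lemma idem_pw (hh : Cong h) {e : List A} (he : h (e ++ e) = h e) {i : ℕ} (hi : 0 < i) :
    h (pw e i) = h e := by
  induction i with
  | zero => omega
  | succ i ih =>
    rcases Nat.eq_zero_or_pos i with h0 | h0
    · subst h0; simp [pw]
    · rw [pw_succ, hh e (pw e i) e e rfl (ih h0), he]

/-- The limit depends only on the class of the base. -/
lemma lim_class (hP : Pmp L C D) (hD : 0 < D) (hh : Cong h) (hl : LimC L D h) {x Z Z' y : List A}
    (hZ : Z ≠ []) (hZ' : Z' ≠ []) (he : h Z = h Z') : Lim L D x Z y ↔ Lim L D x Z' y := by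
  obtain ⟨N, hN⟩ := mix_swap hP hD x Z [] Z' y hZ hZ'
  have h1 := hN (N + 1) (by omega) (N + 1) (by omega)
  rw [List.nil_append, List.append_nil] at h1
  have hpos : 0 < D * (N + 1) := Nat.mul_pos hD (by omega)
  have n1 := pw_ne_nil hZ hpos
  have n2 := pw_ne_nil hZ' hpos
  have h2 : h (pw Z (D * (N + 1))) = h (pw Z' (D * (N + 1))) := cong_pw hh he _
  rw [← shift_right x Z y (N + 1), ← shift_left x Z' y (N + 1)]
  rw [hl x x (pw Z (D * (N + 1)) ++ y) (pw Z' (D * (N + 1)) ++ y) Z hZ
    (by simp [n1]) (by simp [n2]) rfl (hh _ _ _ _ h2 rfl), h1]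
  exact hl _ _ y y Z' hZ' (by simp [n1]) (by simp [n2]) (hh _ _ _ _ rfl h2) rfl

/-- Blow up an idempotent factor, using a large power on its left. -/
lemma blow_left (hP : Pmp L C D) (hD : 0 < D) (hh : Cong h) (hl : LimC L D h) (hC : 0 < C)
    (ls lt lr : List (List A × ℕ)) (Z e q : List A) (v : ℕ) (hZ : Z ≠ []) (hv : C ≤ v)
    (he : e ≠ []) (hee : h (e ++ e) = h e) (hr : expand lr = e ++ q)
    (hcost : C * (cost ls + Z.length + cost lt + cost lr) ≤
      (expand ls ++ pw Z v ++ expand lt ++ e ++ q).length) :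
    expand ls ++ pw Z v ++ expand lt ++ e ++ q ∈ L ↔
      Lim L D (expand ls ++ pw Z v ++ expand lt) e q := by
  have hv0 : 0 < v := lt_of_lt_of_le hC hv
  have n1 := pw_ne_nil hZ hv0
  -- step 1
  have s1 : ∀ j, (expand ls ++ pw Z v ++ expand lt ++ e ++ q ∈ L ↔
      expand ls ++ pw Z v ++ pw Z (D * j) ++ (expand lt ++ e ++ q) ∈ L) := by
    intro j
    have h1 := pump_many hP ls (lt ++ lr) Z v (by
      rw [cost_append', expand_append, hr]
      simp only [List.length_append, length_pw] at hcost ⊢
      have e : cost ls + Z.length + (cost lt + cost lr) =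
        cost ls + Z.length + cost lt + cost lr := by ring
      rw [e]
      omega) hv j
    rw [expand_append, hr, pw_add] at h1
    have e1 : expand ls ++ pw Z v ++ (expand lt ++ (e ++ q)) =
        expand ls ++ pw Z v ++ expand lt ++ e ++ q := by simp
    have e2 : expand ls ++ (pw Z v ++ pw Z (D * j)) ++ (expand lt ++ (e ++ q)) =
        expand ls ++ pw Z v ++ pw Z (D * j) ++ (expand lt ++ e ++ q) := by simp
    rw [e1, e2] at h1
    exact h1
  have s2 : expand ls ++ pw Z v ++ expand lt ++ e ++ q ∈ L ↔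
      Lim L D (expand ls ++ pw Z v) Z (expand lt ++ e ++ q) := by
    constructor
    · intro hw
      exact ⟨0, fun i _ => (s1 i).1 hw⟩
    · rintro ⟨N, hN⟩
      exact (s1 N).2 (hN N le_rfl)
  obtain ⟨N, hN⟩ := pump_desc_left hP hD (expand ls) Z (expand lt) e q v hv he
  obtain ⟨N', hN'⟩ := lim_iff hP hD (expand ls ++ pw Z v ++ expand lt) e q he
  set k := N + N' + 1 with hk
  have s3 : Lim L D (expand ls ++ pw Z v) Z (expand lt ++ e ++ q) ↔
      Lim L D (expand ls ++ pw Z v) Z (expand lt ++ pw e (D * k) ++ q) := by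
    apply hl _ _ _ _ _ hZ (by simp [n1]) (by simp [n1]) rfl
    apply hh _ _ _ _ _ rfl
    apply hh _ _ _ _ rfl
    exact (idem_pw hh hee (Nat.mul_pos hD (by omega))).symm
  have s4 : Lim L D (expand ls ++ pw Z v) Z (expand lt ++ pw e (D * k) ++ q) ↔
      expand ls ++ pw Z v ++ expand lt ++ pw e (D * k) ++ q ∈ L := by
    have h1 := hN k (by omega)
    have e1 : ∀ i, expand ls ++ pw Z v ++ pw Z (D * i) ++ (expand lt ++ pw e (D * k) ++ q) =
        expand ls ++ pw Z (v + D * i) ++ expand lt ++ pw e (D * k) ++ q := by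
      intro i; rw [pw_add]; simp
    constructor
    · rintro ⟨m, hm⟩
      have h2 := hm m le_rfl
      rw [e1] at h2
      exact (h1 m).2 h2
    · intro h2
      refine ⟨0, fun i _ => ?_⟩
      rw [e1]
      exact (h1 i).1 h2
  rw [s2, s3, s4]
  exact hN' k (by omega)

lemma blow_right (hP : Pmp L C D) (hD : 0 < D) (hh : Cong h) (hl : LimC L D h) (hC : 0 < C)
    (ls lt lr : List (List A × ℕ)) (Z p e : List A) (v : ℕ) (hZ : Z ≠ []) (hv : C ≤ v)
    (he : e ≠ []) (hee : h (e ++ e) = h e) (hr : expand lr = p ++ e)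
    (hcost : C * (cost lr + (cost ls + Z.length + cost lt)) ≤
      (p ++ e ++ (expand ls ++ pw Z v ++ expand lt)).length) :
    p ++ e ++ (expand ls ++ pw Z v ++ expand lt) ∈ L ↔
      Lim L D p e (expand ls ++ pw Z v ++ expand lt) := by
  have hv0 : 0 < v := lt_of_lt_of_le hC hv
  have n1 := pw_ne_nil hZ hv0
  -- step 1
  have s1 : ∀ j, (p ++ e ++ (expand ls ++ pw Z v ++ expand lt) ∈ L ↔
      (p ++ e ++ expand ls ++ pw Z v) ++ pw Z (D * j) ++ expand lt ∈ L) := by
    intro j
    have h1 := pump_many hP (lr ++ ls) lt Z v (by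
      rw [cost_append', expand_append, hr]
      simp only [List.length_append, length_pw] at hcost ⊢
      have e : cost lr + cost ls + Z.length + cost lt =
        cost lr + (cost ls + Z.length + cost lt) := by ring
      rw [e]
      omega) hv j
    rw [expand_append, hr, pw_add] at h1
    have e1 : p ++ e ++ expand ls ++ pw Z v ++ expand lt =
        p ++ e ++ (expand ls ++ pw Z v ++ expand lt) := by simp
    have e2 : p ++ e ++ expand ls ++ (pw Z v ++ pw Z (D * j)) ++ expand lt =
        (p ++ e ++ expand ls ++ pw Z v) ++ pw Z (D * j) ++ expand lt := by simp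
    rw [e1, e2] at h1
    exact h1
  have s2 : p ++ e ++ (expand ls ++ pw Z v ++ expand lt) ∈ L ↔
      Lim L D (p ++ e ++ expand ls ++ pw Z v) Z (expand lt) := by
    constructor
    · intro hw
      exact ⟨0, fun i _ => (s1 i).1 hw⟩
    · rintro ⟨N, hN⟩
      exact (s1 N).2 (hN N le_rfl)
  obtain ⟨N, hN⟩ := pump_desc_right hP hD p e (expand ls) Z (expand lt) v hv he
  obtain ⟨N', hN'⟩ := lim_iff hP hD p e (expand ls ++ pw Z v ++ expand lt) he
  set k := N + N' + 1 with hk
  have s3 : Lim L D (p ++ e ++ expand ls ++ pw Z v) Z (expand lt) ↔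
      Lim L D (p ++ pw e (D * k) ++ expand ls ++ pw Z v) Z (expand lt) := by
    apply hl _ _ _ _ _ hZ (by simp [n1]) (by simp [n1]) _ rfl
    apply hh _ _ _ _ _ rfl
    apply hh _ _ _ _ _ rfl
    apply hh _ _ _ _ rfl
    exact (idem_pw hh hee (Nat.mul_pos hD (by omega))).symm
  have s4 : Lim L D (p ++ pw e (D * k) ++ expand ls ++ pw Z v) Z (expand lt) ↔
      p ++ pw e (D * k) ++ (expand ls ++ pw Z v ++ expand lt) ∈ L := by
    have h1 := hN k (by omega)
    have e1 : ∀ i, p ++ pw e (D * k) ++ expand ls ++ pw Z v ++ pw Z (D * i) ++ expand lt =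
        p ++ pw e (D * k) ++ expand ls ++ pw Z (v + D * i) ++ expand lt := by
      intro i; rw [pw_add]; simp
    have e2 : p ++ pw e (D * k) ++ expand ls ++ pw Z v ++ expand lt =
        p ++ pw e (D * k) ++ (expand ls ++ pw Z v ++ expand lt) := by simp
    rw [← e2]
    constructor
    · rintro ⟨m, hm⟩
      have h2 := hm m le_rfl
      rw [e1] at h2
      exact (h1 m).2 h2
    · intro h2
      refine ⟨0, fun i _ => ?_⟩
      rw [e1]
      exact (h1 i).1 h2
  rw [s2, s3, s4]
  exact hN' k (by omega)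

/-- Tame words: membership is given by the limit of any idempotent factorisation. -/
lemma tame_iff (hP : Pmp L C D) (hD : 0 < D) (hh : Cong h) (hl : LimC L D h) (hC : 0 < C)
    (l : List (List A × ℕ)) (c z₁ z₂ y : List A) (hw : expand l = c ++ z₁ ++ z₂ ++ y)
    (hcost : 27 * C * cost l ≤ (expand l).length) (h1 : z₁ ≠ []) (h2 : z₂ ≠ [])
    (h3 : h z₁ = h z₂) (h4 : h (z₁ ++ z₂) = h z₁) :
    expand l ∈ L ↔ Lim L D c z₁ y := by
  have i1 : h (z₁ ++ z₁) = h z₁ := by
    rw [← h4]; exact hh _ _ _ _ rfl h3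
  have i2 : h (z₂ ++ z₂) = h z₂ := by
    rw [← h3, ← h4]; exact hh _ _ _ _ h3.symm rfl
  obtain ⟨l', ly, e1, e2, c1⟩ := split_list l (c ++ z₁ ++ z₂) y hw
  obtain ⟨l'', l2, e3, e4, c2⟩ := split_list l' (c ++ z₁) z₂ e1
  obtain ⟨lc, l1, e5, e6, c3⟩ := split_list l'' c z₁ e3
  have ctot : cost lc + cost l1 + cost l2 + cost ly ≤ 27 * cost l := by omega
  have hC27 : C * (cost lc + cost l1 + cost l2 + cost ly) ≤ (expand l).length := by
    refine le_trans (Nat.mul_le_mul_left C ctot) ?_
    calc C * (27 * cost l) = 27 * C * cost l := by ring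
      _ ≤ _ := hcost
  have hexp : expand (lc ++ l1 ++ l2 ++ ly) = expand l := by
    rw [expand_append, expand_append, expand_append, e5, e6, e4, e2, hw]
  have hne : expand (lc ++ l1 ++ l2 ++ ly) ≠ [] := by
    rw [hexp, hw]; simp [h1]
  obtain ⟨⟨Z, v⟩, hmem, hZ, hv⟩ := exists_big C (lc ++ l1 ++ l2 ++ ly) hne (by
    rw [hexp, cost_append', cost_append', cost_append']; exact hC27)
  dsimp only at hZ hv
  -- the limit with `z₂ ++ y`
  have lim1 : Lim L D c z₁ (z₂ ++ y) ↔ Lim L D c z₁ y := by
    rw [← shift_right c z₁ y 1]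
    apply hl _ _ _ _ _ h1 (by simp [h2])
      (List.append_ne_nil_of_right_ne_nil _
        (List.append_ne_nil_of_left_ne_nil (pw_ne_nil h1 (Nat.mul_pos hD Nat.one_pos)) _)) rfl
    apply hh _ _ _ _ _ rfl
    rw [idem_pw hh i1 (Nat.mul_pos hD Nat.one_pos), h3]
  have lim2 : Lim L D (c ++ z₁) z₂ y ↔ Lim L D c z₁ y := by
    rw [lim_class hP hD hh hl h1 h2 h3, ← shift_left c z₂ y 1]
    apply hl _ _ _ _ _ h2 (by simp [h1])
      (List.append_ne_nil_of_left_ne_nil
        (List.append_ne_nil_of_right_ne_nil _ (pw_ne_nil h2 (Nat.mul_pos hD Nat.one_pos))) _) _ rfl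
    apply hh _ _ _ _ rfl
    rw [idem_pw hh i2 (Nat.mul_pos hD Nat.one_pos), h3]
  rw [List.mem_append, List.mem_append, List.mem_append] at hmem
  have hlen : (expand l).length = (c ++ z₁ ++ z₂ ++ y).length := by rw [hw]
  rcases hmem with ((hmem | hmem) | hmem) | hmem
  · -- in `c`
    obtain ⟨ls, lt, hst⟩ := List.append_of_mem hmem
    have ec : c = expand ls ++ pw Z v ++ expand lt := by rw [← e5, hst, expand_mid]
    have hb := blow_left hP hD hh hl hC ls lt (l1 ++ l2 ++ ly) Z z₁ (z₂ ++ y) v hZ hv h1 i1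
      (by rw [expand_append, expand_append, e6, e4, e2]; simp) (by
        rw [← ec]
        have : (c ++ z₁ ++ (z₂ ++ y)).length = (expand l).length := by rw [hlen]; simp
        rw [this]
        refine le_trans (le_of_eq ?_) hC27
        rw [hst, cost_append', cost_append', cost_append', cost_cons]
        ring)
    rw [← ec] at hb
    have e7 : c ++ z₁ ++ (z₂ ++ y) = expand l := by rw [hw]; simp
    rw [e7] at hb
    rw [hb, lim1]
  · -- in `z₁`
    obtain ⟨ls, lt, hst⟩ := List.append_of_mem hmem
    have ec : c ++ z₁ = expand (lc ++ ls) ++ pw Z v ++ expand lt := by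
      rw [expand_append, e5, ← e6, hst, expand_mid]; simp
    have hb := blow_left hP hD hh hl hC (lc ++ ls) lt (l2 ++ ly) Z z₂ y v hZ hv h2 i2
      (by rw [expand_append, e4, e2]) (by
        rw [← ec, ← hlen]
        refine le_trans (le_of_eq ?_) hC27
        rw [hst, cost_append', cost_append', cost_append', cost_cons]
        ring)
    rw [← ec, ← hw] at hb
    rw [hb, lim2]
  · -- in `z₂`
    obtain ⟨ls, lt, hst⟩ := List.append_of_mem hmem
    have ec : z₂ ++ y = expand ls ++ pw Z v ++ expand (lt ++ ly) := by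
      rw [expand_append, e2, ← e4, hst, expand_mid]; simp
    have hb := blow_right hP hD hh hl hC ls (lt ++ ly) (lc ++ l1) Z c z₁ v hZ hv h1 i1
      (by rw [expand_append, e5, e6]) (by
        rw [← ec]
        have : (c ++ z₁ ++ (z₂ ++ y)).length = (expand l).length := by rw [hlen]; simp
        rw [this]
        refine le_trans (le_of_eq ?_) hC27
        rw [hst, cost_append', cost_append', cost_append', cost_cons]
        ring)
    rw [← ec] at hb
    have e7 : c ++ z₁ ++ (z₂ ++ y) = expand l := by rw [hw]; simp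
    rw [e7] at hb
    rw [hb, lim1]
  · -- in `y`
    obtain ⟨ls, lt, hst⟩ := List.append_of_mem hmem
    have ec : z₂ ++ y = expand (l2 ++ ls) ++ pw Z v ++ expand lt := by
      rw [expand_append, e4, ← e2, hst, expand_mid]; simp
    have hb := blow_right hP hD hh hl hC (l2 ++ ls) lt (lc ++ l1) Z c z₁ v hZ hv h1 i1
      (by rw [expand_append, e5, e6]) (by
        rw [← ec]
        have : (c ++ z₁ ++ (z₂ ++ y)).length = (expand l).length := by rw [hlen]; simp
        rw [this]
        refine le_trans (le_of_eq ?_) hC27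
        rw [hst, cost_append', cost_append', cost_append', cost_cons]
        ring)
    rw [← ec] at hb
    have e7 : c ++ z₁ ++ (z₂ ++ y) = expand l := by rw [hw]; simp
    rw [e7] at hb
    rw [hb, lim1]

/-- The regular language. -/
theorem uniform_of_cong [Finite M] (hP : Pmp L C D) (hD : 0 < D) (hh : Cong h)
    (hl : LimC L D h) (hC : 0 < C) (h0 : [] ∉ L) :
    ∃ (C' : ℕ) (K : Language A), K.IsRegular ∧
      ∀ l : List (List A × ℕ), C' * cost l ≤ (expand l).length →
        (expand l ∈ L ↔ expand l ∈ K) := by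
  let g : List A → M × Prop := fun w => (h w, w = [])
  have hg : ∀ u v u' v' : List A, g u = g u' → g v = g v' → g (u ++ v) = g (u' ++ v') := by
    intro u v u' v' h1 h2
    have h1a := congrArg Prod.fst h1
    have h1b := congrArg Prod.snd h1
    have h2a := congrArg Prod.fst h2
    have h2b := congrArg Prod.snd h2
    dsimp only [g] at h1a h1b h2a h2b
    apply Prod.ext
    · exact hh _ _ _ _ h1a h2a
    · show (u ++ v = []) = (u' ++ v' = [])
      rw [List.append_eq_nil_iff, List.append_eq_nil_iff, h1b, h2b]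
  let G : M × Prop → Language A := fun a => lang {w | g w ∈ ({a} : Set (M × Prop))}
  have hG : ∀ a, (G a).IsRegular :=
    fun a => regular_of_inv g (fun u v w huv => hg u w v w huv rfl) {a}
  let S : Set ((M × Prop) × (M × Prop) × (M × Prop)) :=
    {i | ∃ c z y : List A, g c = i.1 ∧ g z = i.2.1 ∧ g y = i.2.2 ∧ z ≠ [] ∧ h (z ++ z) = h z ∧
      Lim L D c z y}
  obtain ⟨R, hR⟩ := exists_factors g
  refine ⟨27 * C + R, lang {w | ∃ i ∈ S, w ∈ G i.1 * G i.2.1 * G i.2.1 * G i.2.2},
    regular_iUnion _ (fun i => regular_mul (regular_mul (regular_mul (hG _) (hG _)) (hG _))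
      (hG _)) S, ?_⟩
  intro l hl'
  have hcost : 27 * C * cost l ≤ (expand l).length := by
    refine le_trans (Nat.mul_le_mul_right _ (Nat.le_add_right _ _)) hl'
  rw [mem_lang]
  constructor
  · intro hw
    have hcl : cost l ≠ 0 := by
      intro hcl
      have : (expand l).length = 0 := by
        have key : ∀ l : List (List A × ℕ), cost l = 0 → (expand l).length = 0 := by
          intro l
          induction l with
          | nil => intro _; rfl
          | cons p l ih =>
            intro hc
            rw [cost_cons] at hc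
            rw [expand_cons, List.length_append, length_pow, ih (by omega)]
            have : p.1.length = 0 := by omega
            rw [this, Nat.mul_zero]
        exact key l hcl
      exact h0 (by rw [← List.length_eq_zero_iff.1 this]; exact hw)
    have hRl : R ≤ (expand l).length := by
      refine le_trans ?_ hl'
      have : R * 1 ≤ (27 * C + R) * cost l :=
        Nat.mul_le_mul (Nat.le_add_left _ _) (Nat.one_le_iff_ne_zero.2 hcl)
      omega
    obtain ⟨c, z₁, z₂, y, e1, h1, h2, h3, h4⟩ := hR _ hRl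
    have h3' : h z₁ = h z₂ := congrArg Prod.fst h3
    have h4' : h (z₁ ++ z₂) = h z₁ := congrArg Prod.fst h4
    have hlim := (tame_iff hP hD hh hl hC l c z₁ z₂ y e1 hcost h1 h2 h3' h4').1 hw
    refine ⟨(g c, g z₁, g y), ⟨c, z₁, y, rfl, rfl, rfl, h1, ?_, hlim⟩, ?_⟩
    · rw [← h4']; exact hh _ _ _ _ rfl h3'
    · rw [Language.mem_mul]
      refine ⟨c ++ z₁ ++ z₂, ?_, y, rfl, e1.symm⟩
      rw [Language.mem_mul]
      refine ⟨c ++ z₁, ?_, z₂, h3.symm, rfl⟩
      rw [Language.mem_mul]
      exact ⟨c, rfl, z₁, rfl, rfl⟩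
  · rintro ⟨⟨a, e, b⟩, ⟨c, z, y, hc, hz, hy, hz0, hzz, hlim⟩, hmem⟩
    dsimp only at hc hz hy hmem
    rw [Language.mem_mul] at hmem
    obtain ⟨w', hw', y', hy', e1⟩ := hmem
    rw [Language.mem_mul] at hw'
    obtain ⟨w'', hw'', z₂, hz₂, rfl⟩ := hw'
    rw [Language.mem_mul] at hw''
    obtain ⟨c', hc', z₁, hz₁, rfl⟩ := hw''
    have hc2 : g c' = g c := by rw [hc]; exact hc'
    have hz12 : g z₁ = g z := by rw [hz]; exact hz₁
    have hz22 : g z₂ = g z := by rw [hz]; exact hz₂
    have hy2 : g y' = g y := by rw [hy]; exact hy'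
    have k1 : z₁ ≠ [] := by
      intro h
      have e : (z₁ = []) = (z = []) := congrArg Prod.snd hz12
      exact hz0 (e.mp h)
    have k2 : z₂ ≠ [] := by
      intro h
      have e : (z₂ = []) = (z = []) := congrArg Prod.snd hz22
      exact hz0 (e.mp h)
    have k3 : h z₁ = h z := congrArg Prod.fst hz12
    have k4 : h z₂ = h z := congrArg Prod.fst hz22
    rw [tame_iff hP hD hh hl hC l c' z₁ z₂ y' e1.symm hcost k1 k2 (k3.trans k4.symm)
      (by rw [k3, ← hzz]; exact hh _ _ _ _ k3 k4), lim_class hP hD hh hl k1 hz0 k3]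
    have m1 : (c' = []) = (c = []) := congrArg Prod.snd hc2
    have m2 : (y' = []) = (y = []) := congrArg Prod.snd hy2
    by_cases hcy : c ++ y = []
    · rw [List.append_eq_nil_iff] at hcy
      have n1 : c' = [] := m1 ▸ hcy.1
      have n2 : y' = [] := m2 ▸ hcy.2
      rw [n1, n2]
      rw [hcy.1, hcy.2] at hlim
      exact hlim
    · refine (hl c' c y' y z hz0 ?_ hcy (congrArg Prod.fst hc2) (congrArg Prod.fst hy2)).2 hlim
      rw [Ne, List.append_eq_nil_iff, m1, m2, ← List.append_eq_nil_iff]
      exact hcy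

end

section

variable {A : Type}

/-- The class of a word. -/
def clsT (T : Type) (u : List A) : (A × Fin 2 → T → T) → Fin 2 → T → T :=
  fun dl c t => (u.map fun a => (a, c)).foldl (fun t a => dl a t) t

lemma cong_clsT (T : Type) : Cong (clsT (A := A) T) := by
  intro u v u' v' h1 h2
  funext dl c t
  show ((u ++ v).map fun a => (a, c)).foldl (fun t a => dl a t) t =
    ((u' ++ v').map fun a => (a, c)).foldl (fun t a => dl a t) t
  rw [List.map_append, List.map_append, List.foldl_append, List.foldl_append]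
  have e1 : (u.map fun a => (a, c)).foldl (fun t a => dl a t) t =
      (u'.map fun a => (a, c)).foldl (fun t a => dl a t) t :=
    congrFun (congrFun (congrFun h1 dl) c) t
  rw [e1]
  exact congrFun (congrFun (congrFun h2 dl) c) _

/-- **Few powers, uniformly in the bases.** -/
theorem uniform_few_powers_of [Finite A] {f : Fml A 0} (hf : AddInvariant f)
    (HU : ∃ (T : Type) (_ : Finite T), ∀ W : Fin 2 → List A, 0 < size W →
      ∃ (dl : A × Fin 2 → T → T) (t0 : T) (acc : Set T), ∀ x : Fin 2 → List A, flg x ≠ [] →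
        ∀ N : ℕ, ∃ i ≥ N, (pump x W i ∈ langOf f ↔
          (flg x).foldl (fun t a => dl a t) t0 ∈ acc)) :
    ∃ (C : ℕ) (K : Language A), K.IsRegular ∧
      ∀ l : List (List A × ℕ), C * cost l ≤ (expand l).length →
        (expand l ∈ langOf f ↔ expand l ∈ K) := by
  obtain ⟨C₀, D, hD, hP₀⟩ := list_pumping hf
  have hP : Pmp (langOf f) (C₀ + 1) D := by
    intro l₁ l₂ Z v h1 h2
    apply hP₀
    · refine le_trans (Nat.mul_le_mul_right _ (Nat.le_add_right _ _)) h1
    · omega
  obtain ⟨T, hT, HU⟩ := HU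
  have hl : LimC (langOf f) D (clsT (A := A) T) := by
    intro x x' y y' Z hZ hxy hxy' ex ey
    have hZ0 : 0 < Z.length := List.length_pos_iff.2 hZ
    obtain ⟨dl, t0, acc, H⟩ := HU ![pw Z D, []] (by
      unfold size
      rw [Fin.sum_univ_two]
      show 0 < (pw Z D).length + 0
      rw [length_pw]
      have := Nat.mul_pos hD hZ0
      omega)
    have hflg : ∀ x y : List A, flg ![x, y] =
        (x.map fun a => (a, (0 : Fin 2))) ++ (y.map fun a => (a, (1 : Fin 2))) := by
      intro x y
      unfold flg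
      have : List.finRange 2 = [0, 1] := rfl
      rw [this]
      simp
    have hpump : ∀ (x y : List A) (i : ℕ), pump ![x, y] ![pw Z D, []] i =
        x ++ pw Z (D * i) ++ y := by
      intro x y i
      unfold pump
      have : List.finRange 2 = [0, 1] := rfl
      rw [this]
      simp only [List.flatMap_cons, List.flatMap_nil, Matrix.cons_val_zero, Matrix.cons_val_one]
      have e1 : (List.replicate i (pw Z D)).flatten = pw Z (D * i) := pw_mul Z D i
      have e2 : (List.replicate i ([] : List A)).flatten = [] := by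
        simp
      rw [e1, e2]
      simp
    have hfold : ∀ x y : List A, (flg ![x, y]).foldl (fun t a => dl a t) t0 =
        clsT T y dl 1 (clsT T x dl 0 t0) := by
      intro x y
      rw [hflg, List.foldl_append]
      rfl
    have key : ∀ x y : List A, x ++ y ≠ [] →
        (Lim (langOf f) D x Z y ↔ clsT T y dl 1 (clsT T x dl 0 t0) ∈ acc) := by
      intro x y hxy
      obtain ⟨N, hN⟩ := lim_iff hP hD x Z y hZ
      obtain ⟨i, hi, h⟩ := H ![x, y] (by
        rw [hflg]
        intro h
        rw [List.append_eq_nil_iff, List.map_eq_nil_iff, List.map_eq_nil_iff] at h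
        exact hxy (by rw [h.1, h.2]; rfl)) N
      rw [hpump, hfold, hN i hi] at h
      exact h
    rw [key x y hxy, key x' y' hxy', ex, ey]
  exact uniform_of_cong hP hD (cong_clsT T) hl (Nat.succ_pos _) (fun h => h.1 rfl)

end

end AddInv
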