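import Pool.Agent.H27AI.CFGPump
import Pool.Agent.H27AI.Mix

/-!
# Context-free immunity of the difference from the regular language
-/

namespace AddInv

open Pool.Agent.H27AI

section

variable {A : Type}

/-- `K` agrees with `L` on all words that are products of few powers. -/
def Agree (L K : Language A) : Prop :=
  ∃ C : ℕ, ∀ l : List (List A × ℕ), C * cost l ≤ (expand l).length →
    (expand l ∈ L ↔ expand l ∈ K)

/-- A context-free language whose part in a regular language lies in the symmetric difference of
`L` and `K` has only finitely many words in that regular language. -/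
theorem cf_immune [Finite A] {L K : Language A} (h : Agree L K) {M R : Language A}
    (hM : M.IsContextFree) (hR : R.IsRegular)
    (hMR : ∀ w ∈ M, w ∈ R → ¬ (w ∈ L ↔ w ∈ K)) : {w | w ∈ M ∧ w ∈ R}.Finite := by
  obtain ⟨C, hC⟩ := h
  obtain ⟨g, rfl⟩ := hM
  obtain ⟨p, hp⟩ := cfg_pumping g R hR
  apply (List.finite_length_lt A p).subset
  rintro w ⟨hw, hwR⟩
  show w.length < p
  by_contra hlen
  obtain ⟨c, x, s, y, z, _, hxy, hi⟩ := hp w hw (by omega)
  set i := C * (c.length + x.length + s.length + y.length + z.length) with hidef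
  obtain ⟨h1, h2⟩ := hi i
  have e : expand [(c, 1), (x, i), (s, 1), (y, i), (z, 1)] =
      c ++ (List.replicate i x).flatten ++ s ++ (List.replicate i y).flatten ++ z := by
    rw [expand_cons, expand_cons, expand_cons, expand_cons, expand_one]
    simp
  refine hMR _ h1 (h2.2 hwR) ?_
  rw [← e]
  apply hC
  rw [e, cost_cons, cost_cons, cost_cons, cost_cons, cost_cons, cost_nil']
  simp only [List.length_append, length_pow]
  have h3 : i ≤ i * (x.length + y.length) := Nat.le_mul_of_pos_right _ hxy
  rw [Nat.mul_add] at h3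
  have h4 : C * (c.length + (x.length + (s.length + (y.length + (z.length + 0))))) = i := by
    rw [hidef]; ring
  rw [h4]
  omega

/-- Context-free sublanguages of `L` are almost contained in `K`, and context-free languages
disjoint from `L` are almost disjoint from `K`. -/
theorem cf_sandwich [Finite A] {L K : Language A} (h : Agree L K) (hK : K.IsRegular)
    {M : Language A} (hM : M.IsContextFree) :
    ((∀ w ∈ M, w ∈ L) → {w | w ∈ M ∧ w ∉ K}.Finite) ∧
      ((∀ w ∈ M, w ∉ L) → {w | w ∈ M ∧ w ∈ K}.Finite) := by
  constructor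
  · intro hML
    have := cf_immune h hM hK.compl (by
      intro w hw hwK hiff
      exact hwK (hiff.1 (hML w hw)))
    exact this
  · intro hML
    exact cf_immune h hM hK (by
      intro w hw hwK hiff
      exact hML w hw (hiff.2 hwK))

/-- No infinite context-free language is contained in the symmetric difference. -/
theorem cf_diff [Finite A] {L K : Language A} (h : Agree L K) {M : Language A}
    (hM : M.IsContextFree) (hd : ∀ w ∈ M, ¬ (w ∈ L ↔ w ∈ K)) :
    Set.Finite {w | w ∈ M} := by
  have hR : (⊤ : Language A).IsRegular := by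
    have h1 := regular_of_inv (A := A) (fun _ => ()) (fun _ _ _ _ => rfl) {()}
    have h2 : (⊤ : Language A) = lang {w | (fun _ : List A => ()) w ∈ ({()} : Set Unit)} := by
      ext w
      constructor
      · intro _; exact rfl
      · intro _; exact Set.mem_univ w
    rw [h2]; exact h1
  have := cf_immune h hM hR (fun w hw _ => hd w hw)
  apply this.subset
  intro w hw
  exact ⟨hw, Set.mem_univ w⟩

/-- If `L` and its complement are context-free, then `L` is regular. -/
theorem regular_of_cf_cocf [Finite A] {L K : Language A} (h : Agree L K) (hK : K.IsRegular)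
    (h1 : L.IsContextFree) (h2 : Language.IsContextFree Lᶜ) : L.IsRegular := by
  have f1 := (cf_sandwich h hK h1).1 (fun w hw => hw)
  have f2 := (cf_sandwich h hK h2).2 (fun w hw => hw)
  have r1 : (lang {w | w ∈ L ∧ w ∉ K}).IsRegular := regular_of_finite f1
  have r2 : (lang {w | w ∈ Lᶜ ∧ w ∈ K}).IsRegular := regular_of_finite f2
  have e : L = K ⊓ (lang {w | w ∈ Lᶜ ∧ w ∈ K})ᶜ + lang {w | w ∈ L ∧ w ∉ K} := by
    ext w
    rw [Language.mem_add, Language.mem_inf]
    have hc : w ∈ (lang {w | w ∈ Lᶜ ∧ w ∈ K})ᶜ ↔ ¬ (w ∉ L ∧ w ∈ K) := Iff.rfl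
    have hd : w ∈ lang {w | w ∈ L ∧ w ∉ K} ↔ (w ∈ L ∧ w ∉ K) := Iff.rfl
    rw [hc, hd]
    tauto
  rw [e]
  exact (hK.inf r2.compl).add r1

end

end AddInv
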