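import Pool.Agent.H66.AI.Linear

/-!
# Leading digits

`ld B x` is the leading digit of `x` in base `B`, and `rho B x` is `x` with its leading digit
replaced by `1` (and `0` for `x = 0`).
-/

namespace AddInv

/-- The leading digit. -/
def ld (B x : ℕ) : ℕ := x / B ^ Nat.log B x

/-- The number with its leading digit replaced by `1`. -/
def rho (B x : ℕ) : ℕ := if x = 0 then 0 else B ^ Nat.log B x + x % B ^ Nat.log B x

section

variable {B : ℕ} (hB : 2 ≤ B)

include hB

lemma log_mul_add {a c k : ℕ} (ha : 0 < a) (hc : c < B ^ k) :
    Nat.log B (a * B ^ k + c) = Nat.log B a + k := by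
  apply Nat.log_eq_of_pow_le_of_lt_pow
  · rw [pow_add]
    have h1 : B ^ Nat.log B a ≤ a := Nat.pow_log_le_self B (by omega)
    have h2 := Nat.mul_le_mul_right (B ^ k) h1
    omega
  · have h1 : a < B ^ (Nat.log B a + 1) := Nat.lt_pow_succ_log_self (by omega) a
    have h2 : (a + 1) * B ^ k ≤ B ^ (Nat.log B a + 1) * B ^ k := Nat.mul_le_mul_right _ h1
    rw [← pow_add] at h2
    have h3 : Nat.log B a + k + 1 = Nat.log B a + 1 + k := by ring
    rw [h3]
    rw [Nat.add_mul, one_mul] at h2
    omega

lemma ld_mul_add {a c k : ℕ} (ha : 0 < a) (hc : c < B ^ k) :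
    ld B (a * B ^ k + c) = ld B a := by
  unfold ld
  rw [log_mul_add hB ha hc, pow_add, mul_comm (B ^ Nat.log B a), ← Nat.div_div_eq_div_mul]
  have hpos : 0 < B ^ k := by positivity
  congr 1
  rw [mul_comm, Nat.mul_add_div hpos, Nat.div_eq_of_lt hc, add_zero]

lemma rho_mul_add {a c k : ℕ} (ha : 0 < a) (hc : c < B ^ k) :
    rho B (a * B ^ k + c) = rho B a * B ^ k + c := by
  have hpos : 0 < B ^ k := by positivity
  have h0 : a * B ^ k + c ≠ 0 := by
    have : 0 < a * B ^ k := Nat.mul_pos ha hpos
    omega
  unfold rho
  rw [if_neg h0, if_neg (by omega), log_mul_add hB ha hc]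
  have hd := Nat.div_add_mod a (B ^ Nat.log B a)
  set P := B ^ Nat.log B a with hP
  have hPpos : 0 < P := by rw [hP]; positivity
  have hm := Nat.mod_lt a hPpos
  have e1 : a * B ^ k + c = (B ^ (Nat.log B a + k)) * (a / P) + (a % P * B ^ k + c) := by
    rw [pow_add, ← hP]
    conv_lhs => rw [← hd]
    ring
  have e2 : a % P * B ^ k + c < B ^ (Nat.log B a + k) := by
    rw [pow_add, ← hP]
    have h2 : (a % P + 1) * B ^ k ≤ P * B ^ k := Nat.mul_le_mul_right _ hm
    rw [Nat.add_mul, one_mul] at h2
    omega
  rw [e1, Nat.mul_add_mod, Nat.mod_eq_of_lt e2, pow_add, ← hP]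
  ring

omit hB in
lemma rho_zero : rho B 0 = 0 := by simp [rho]

lemma rho_le (x : ℕ) : rho B x ≤ x := by
  unfold rho
  by_cases h : x = 0
  · rw [if_pos h]; omega
  · rw [if_neg h]
    have hd := Nat.div_add_mod x (B ^ Nat.log B x)
    have h1 : B ^ Nat.log B x ≤ x := Nat.pow_log_le_self B h
    have hpos : 0 < B ^ Nat.log B x := by positivity
    have h2 : 1 ≤ x / B ^ Nat.log B x := (Nat.one_le_div_iff hpos).2 h1
    have h3 : B ^ Nat.log B x * 1 ≤ B ^ Nat.log B x * (x / B ^ Nat.log B x) :=
      Nat.mul_le_mul_left _ h2
    rw [mul_one] at h3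
    linarith

lemma rho_eq_zero (x : ℕ) : rho B x = 0 ↔ x = 0 := by
  unfold rho
  by_cases h : x = 0
  · simp [h]
  · rw [if_neg h]
    have hpos : 0 < B ^ Nat.log B x := by positivity
    constructor
    · intro h1; exact absurd (Nat.add_eq_zero_iff.1 h1).1 hpos.ne'
    · intro h1; exact absurd h1 h

lemma rho_pos {x : ℕ} (h : 0 < x) : 0 < rho B x := by
  rcases Nat.eq_zero_or_pos (rho B x) with h1 | h1
  · rw [rho_eq_zero hB] at h1; omega
  · exact h1

lemma ld_pos {x : ℕ} (h : 0 < x) : 0 < ld B x := by
  unfold ld
  have hpos : 0 < B ^ Nat.log B x := by positivity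
  exact (Nat.one_le_div_iff hpos).2 (Nat.pow_log_le_self B (by omega))

lemma ld_lt {x : ℕ} : ld B x < B := by
  unfold ld
  have h1 : x < B ^ (Nat.log B x + 1) := Nat.lt_pow_succ_log_self (by omega) x
  rw [pow_succ] at h1
  exact Nat.div_lt_of_lt_mul h1

omit hB in
lemma ld_small {d : ℕ} (hd : d < B) : ld B d = d := by
  unfold ld
  rw [Nat.log_of_lt hd]
  simp

omit hB in
lemma rho_small {d : ℕ} (h : 0 < d) (hd : d < B) : rho B d = 1 := by
  unfold rho
  rw [if_neg (by omega), Nat.log_of_lt hd]
  simp [Nat.mod_one]

end

section

variable {Γ : Type}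

/-- The size of a marked line: the sum of the powers of `B` at the marked places (the head of
the list is the most significant place). -/
def nn (B : ℕ) : List (Option Γ) → ℕ
  | [] => 0
  | none :: w => nn B w
  | some _ :: w => B ^ w.length + nn B w

/-- The mark and the remainder of a number below `nn`. -/
def seg (B : ℕ) : List (Option Γ) → ℕ → Option (Γ × ℕ)
  | [], _ => none
  | none :: w, x => seg B w x
  | some g :: w, x => if x < B ^ w.length then some (g, x) else seg B w (x - B ^ w.length)

/-- The number with the leading digit of its remainder replaced by `1`. -/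
def rhoA (B : ℕ) : List (Option Γ) → ℕ → ℕ
  | [], x => x
  | none :: w, x => rhoA B w x
  | some _ :: w, x => if x < B ^ w.length then rho B x else
      B ^ w.length + rhoA B w (x - B ^ w.length)

/-- The remainder is zero. -/
def zb (o : Option (Γ × ℕ)) : Bool := o.elim false fun z => z.2 == 0

lemma nn_some (B : ℕ) (g : Γ) (w : List (Option Γ)) :
    nn B (some g :: w) = B ^ w.length + nn B w := rfl

lemma seg_some (B : ℕ) (g : Γ) (w : List (Option Γ)) (x : ℕ) :
    seg B (some g :: w) x =
      if x < B ^ w.length then some (g, x) else seg B w (x - B ^ w.length) := rfl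

lemma rhoA_some (B : ℕ) (g : Γ) (w : List (Option Γ)) (x : ℕ) :
    rhoA B (some g :: w) x = if x < B ^ w.length then rho B x else
      B ^ w.length + rhoA B w (x - B ^ w.length) := rfl

/-- Arithmetic of a block. -/
lemma block_lt_iff {a c S M : ℕ} (hc : c < S) : a * S + c < M * S ↔ a < M := by
  constructor
  · intro h
    by_contra h1
    push Not at h1
    have := Nat.mul_le_mul_right S h1
    omega
  · intro h
    have : (a + 1) * S ≤ M * S := Nat.mul_le_mul_right S h
    rw [Nat.add_mul, one_mul] at this
    omega

variable {B : ℕ} (hB : 2 ≤ B)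

include hB

lemma nn_lt : ∀ w : List (Option Γ), nn B w < B ^ w.length
  | [] => by simp [nn]
  | none :: w => by
      have h1 := nn_lt w
      show nn B w < B ^ (w.length + 1)
      have h2 : B ^ w.length ≤ B ^ (w.length + 1) := Nat.pow_le_pow_right (by omega) (by omega)
      omega
  | some _ :: w => by
      have h1 := nn_lt w
      show B ^ w.length + nn B w < B ^ (w.length + 1)
      have h2 : 2 * B ^ w.length ≤ B ^ (w.length + 1) := by
        rw [pow_succ, mul_comm]
        exact Nat.mul_le_mul_left _ hB
      omega

omit hB in
lemma nn_append (u v : List (Option Γ)) : nn B (u ++ v) = nn B u * B ^ v.length + nn B v := by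
  induction u with
  | nil => simp [nn]
  | cons m u ih =>
    cases m with
    | none => exact ih
    | some g =>
      show B ^ (u ++ v).length + nn B (u ++ v) = (B ^ u.length + nn B u) * B ^ v.length + nn B v
      rw [ih, List.length_append, pow_add]
      ring

omit hB in
lemma seg_append_left : ∀ (u v : List (Option Γ)) (a c : ℕ), a < nn B u → c < B ^ v.length →
    seg B (u ++ v) (a * B ^ v.length + c) =
      (seg B u a).map fun z => (z.1, z.2 * B ^ v.length + c)
  | [], v, a, c, ha, _ => by simp [nn] at ha
  | none :: u, v, a, c, ha, hc => seg_append_left u v a c ha hc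
  | some g :: u, v, a, c, ha, hc => by
      rw [List.cons_append, seg_some, seg_some, List.length_append, pow_add]
      by_cases h : a < B ^ u.length
      · rw [if_pos h, if_pos ((block_lt_iff hc).2 h)]
        rfl
      · rw [if_neg h, if_neg (fun h1 => h ((block_lt_iff hc).1 h1))]
        rw [nn_some] at ha
        have h2 : a - B ^ u.length < nn B u := by omega
        have h3 : a * B ^ v.length + c - B ^ u.length * B ^ v.length =
            (a - B ^ u.length) * B ^ v.length + c := by
          rw [Nat.sub_mul]
          have : B ^ u.length * B ^ v.length ≤ a * B ^ v.length :=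
            Nat.mul_le_mul_right _ (by omega)
          omega
        rw [h3]
        exact seg_append_left u v _ c h2 hc

omit hB in
lemma seg_append_right : ∀ (u v : List (Option Γ)) (c : ℕ), c < B ^ v.length →
    seg B (u ++ v) (nn B u * B ^ v.length + c) = seg B v c
  | [], v, c, _ => by simp [nn]
  | none :: u, v, c, hc => seg_append_right u v c hc
  | some g :: u, v, c, hc => by
      rw [List.cons_append, seg_some, List.length_append, pow_add, nn_some]
      rw [if_neg (fun h1 => by
        have := (block_lt_iff hc).1 h1
        omega)]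
      have h3 : (B ^ u.length + nn B u) * B ^ v.length + c - B ^ u.length * B ^ v.length =
          nn B u * B ^ v.length + c := by
        rw [Nat.add_mul]
        omega
      rw [h3]
      exact seg_append_right u v c hc

lemma rhoA_append_left : ∀ (u v : List (Option Γ)) (a c : ℕ), a < nn B u → c < B ^ v.length →
    rhoA B (u ++ v) (a * B ^ v.length + c) =
      if zb (seg B u a) = true then a * B ^ v.length + rho B c
      else rhoA B u a * B ^ v.length + c
  | [], v, a, c, ha, _ => by simp [nn] at ha
  | none :: u, v, a, c, ha, hc => rhoA_append_left u v a c ha hc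
  | some g :: u, v, a, c, ha, hc => by
      rw [List.cons_append, seg_some, rhoA_some, rhoA_some, List.length_append, pow_add]
      by_cases h : a < B ^ u.length
      · rw [if_pos h, if_pos h, if_pos ((block_lt_iff hc).2 h)]
        by_cases ha0 : a = 0
        · subst ha0
          simp [zb]
        · rw [if_neg (by simpa [zb] using ha0), rho_mul_add hB (by omega) hc]
      · rw [if_neg h, if_neg h, if_neg (fun h1 => h ((block_lt_iff hc).1 h1))]
        rw [nn_some] at ha
        have h2 : a - B ^ u.length < nn B u := by omega
        have h4 : B ^ u.length * B ^ v.length ≤ a * B ^ v.length :=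
            Nat.mul_le_mul_right _ (by omega)
        have h3 : a * B ^ v.length + c - B ^ u.length * B ^ v.length =
            (a - B ^ u.length) * B ^ v.length + c := by
          rw [Nat.sub_mul]
          omega
        rw [h3, rhoA_append_left u v _ c h2 hc]
        by_cases h5 : zb (seg B u (a - B ^ u.length)) = true
        · rw [if_pos h5, if_pos h5, Nat.sub_mul]
          omega
        · rw [if_neg h5, if_neg h5]
          ring

omit hB in
lemma rhoA_append_right : ∀ (u v : List (Option Γ)) (c : ℕ), c < B ^ v.length →
    rhoA B (u ++ v) (nn B u * B ^ v.length + c) = nn B u * B ^ v.length + rhoA B v c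
  | [], v, c, _ => by simp [nn]
  | none :: u, v, c, hc => rhoA_append_right u v c hc
  | some g :: u, v, c, hc => by
      rw [List.cons_append, rhoA_some, List.length_append, pow_add, nn_some]
      rw [if_neg (fun h1 => by
        have := (block_lt_iff hc).1 h1
        omega)]
      have h3 : (B ^ u.length + nn B u) * B ^ v.length + c - B ^ u.length * B ^ v.length =
          nn B u * B ^ v.length + c := by
        rw [Nat.add_mul]
        omega
      rw [h3, rhoA_append_right u v c hc]
      ring

omit hB in
lemma seg_isSome : ∀ (w : List (Option Γ)) (x : ℕ), x < nn B w → (seg B w x).isSome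
  | [], x, h => by simp [nn] at h
  | none :: w, x, h => seg_isSome w x h
  | some g :: w, x, h => by
      rw [seg_some]
      rw [nn_some] at h
      by_cases h1 : x < B ^ w.length
      · rw [if_pos h1]; rfl
      · rw [if_neg h1]
        exact seg_isSome w _ (by omega)

/-- Equality of `rhoA` preserves a zero remainder. -/
lemma zb_of_rhoA_eq : ∀ (w : List (Option Γ)) (x y : ℕ), x < nn B w → y < nn B w →
    rhoA B w x = rhoA B w y → zb (seg B w x) = true → zb (seg B w y) = true
  | [], x, y, h, _, _, _ => by simp [nn] at h
  | none :: w, x, y, h, h', he, hz => zb_of_rhoA_eq w x y h h' he hz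
  | some g :: w, x, y, h, h', he, hz => by
      rw [nn_some] at h h'
      rw [rhoA_some, rhoA_some] at he
      rw [seg_some] at hz ⊢
      have l1 := rho_le hB x
      have l2 := rho_le hB y
      by_cases c1 : x < B ^ w.length
      · by_cases c2 : y < B ^ w.length
        · rw [if_pos c1, if_pos c2] at he
          rw [if_pos c1] at hz
          rw [if_pos c2]
          have hz' : x = 0 := by simpa [zb] using hz
          rw [hz', rho_zero] at he
          simpa [zb] using (rho_eq_zero hB y).1 he.symm
        · rw [if_pos c1, if_neg c2] at he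
          omega
      · by_cases c2 : y < B ^ w.length
        · rw [if_neg c1, if_pos c2] at he
          omega
        · rw [if_neg c1, if_neg c2] at he
          rw [if_neg c1] at hz
          rw [if_neg c2]
          exact zb_of_rhoA_eq w _ _ (by omega) (by omega) (by omega) hz

lemma rhoA_of_zb : ∀ (w : List (Option Γ)) (x : ℕ), x < nn B w →
    zb (seg B w x) = true → rhoA B w x = x
  | [], x, h, _ => by simp [nn] at h
  | none :: w, x, h, hz => rhoA_of_zb w x h hz
  | some g :: w, x, h, hz => by
      rw [nn_some] at h
      rw [seg_some] at hz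
      rw [rhoA_some]
      by_cases c1 : x < B ^ w.length
      · rw [if_pos c1] at hz
        rw [if_pos c1]
        have hz' : x = 0 := by simpa [zb] using hz
        rw [hz', rho_zero]
      · rw [if_neg c1] at hz
        rw [if_neg c1, rhoA_of_zb w _ (by omega) hz]
        omega

lemma rhoA_le : ∀ (w : List (Option Γ)) (x : ℕ), rhoA B w x ≤ x
  | [], x => le_rfl
  | none :: w, x => rhoA_le w x
  | some g :: w, x => by
      rw [rhoA_some]
      by_cases c1 : x < B ^ w.length
      · rw [if_pos c1]; exact rho_le hB x
      · rw [if_neg c1]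
        have := rhoA_le w (x - B ^ w.length)
        omega

end

end AddInv
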