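import Pool.Agent.H66.AI.Multi

/-!
# Addition-invariant first-order logic: pumping one power

The definitions of the logic (`Fml`, `Sat`, `AddInvariant`, `langOf`, `Definable`) are in
`Pool/Agent/H66/AI/Defs.lean`; `expand` and `cost` are in `Pool/Agent/H66/AI/PumpDefs.lean`.
-/

namespace Pool.Agent.H27AI.PowerPumping

open AddInv

/-- Let `L` be definable in addition-invariant first-order logic. There are constants `C`, `D`
with `D > 0` such that in every word `x Z^v y` with `v ≥ C`, where `x` and `y` are given as
products of powers and `C` times the total length of the bases of all these powers (`Z`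
included) is at most the length of the word, the exponent `v` may be replaced by `v + D` without
changing membership in `L`. The constants depend only on `L`. -/
theorem result {A : Type} (L : Language A) (hL : Definable L) :
    ∃ C D : ℕ, 0 < D ∧
      ∀ (l₁ l₂ : List (List A × ℕ)) (Z : List A) (v : ℕ),
        C * (cost l₁ + Z.length + cost l₂) ≤
          (expand l₁ ++ (List.replicate v Z).flatten ++ expand l₂).length → C ≤ v →
        (expand l₁ ++ (List.replicate v Z).flatten ++ expand l₂ ∈ L ↔
          expand l₁ ++ (List.replicate (v + D) Z).flatten ++ expand l₂ ∈ L) := by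
  obtain ⟨f, hf, rfl⟩ := hL
  obtain ⟨C, D, hD, h⟩ := list_pumping hf
  refine ⟨C, D, hD, fun l₁ l₂ Z v h1 h2 => h l₁ l₂ Z v ?_ h2⟩
  rw [List.length_append, List.length_append, length_pow] at h1
  exact h1

end Pool.Agent.H27AI.PowerPumping
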