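import Pool.Agent.H27AI.EfL

/-!
# The word realised by a marked line
-/

namespace AddInv

section

lemma flatMap_if {α β : Type} (p : α → Bool) (Q : List β) (L : List α) :
    (L.flatMap fun r => if p r = true then Q else []) =
      (List.replicate (L.filter p).length Q).flatten := by
  induction L with
  | nil => rfl
  | cons r L ih =>
    rw [List.flatMap_cons, ih]
    by_cases h : p r = true
    · rw [if_pos h, List.filter_cons_of_pos h, List.length_cons, List.replicate_succ,
        List.flatten_cons]
    · rw [if_neg h, List.filter_cons_of_neg h, List.nil_append]

lemma flatMap_toList {α β : Type} (g : α → Option β) (L : List α) :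
    (L.flatMap fun x => (g x).toList) = L.filterMap g := by
  induction L with
  | nil => rfl
  | cons a L ih =>
    rw [List.flatMap_cons, ih]
    cases h : g a with
    | none => rw [List.filterMap_cons_none h]; rfl
    | some c => rw [List.filterMap_cons_some h]; rfl

lemma filterMap_one {α β : Type} (g : α → Option β) (a : α) :
    [a].filterMap g = (g a).toList := by
  rw [← flatMap_toList]
  simp

/-- Picking one element of a range. -/
lemma filterMap_range_one {β : Type} (N s ρ : ℕ) (o : Option β) :
    ((List.range N).filterMap fun j => if s + j = ρ then o else none) =
      if s ≤ ρ ∧ ρ < s + N then o.toList else [] := by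
  induction N with
  | zero =>
    rw [if_neg (by omega)]
    rfl
  | succ N ih =>
    rw [List.range_succ, List.filterMap_append, ih, filterMap_one]
    by_cases h : s + N = ρ
    · rw [if_pos h, if_neg (by omega), if_pos (by omega), List.nil_append]
    · rw [if_neg h]
      show _ ++ [] = _
      rw [List.append_nil]
      by_cases h2 : s ≤ ρ ∧ ρ < s + N
      · rw [if_pos h2, if_pos (by omega)]
      · rw [if_neg h2, if_neg (by omega)]

variable {Γ : Type} {zs : List Γ} {B : ℕ} (hB : 2 ≤ B) (hz : zs.length + 1 = B)

lemma flatMap_getElem {Γ : Type} (zs : List Γ) :
    ((List.range zs.length).flatMap fun x => (zs[x]?).toList) = zs := by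
  rw [flatMap_toList]
  exact filterMap_range_getElem zs

include hB hz

/-- The labels of the numbers with a given `rho`. -/
lemma members_Y (ρ : ℕ) : ∀ K : ℕ,
    ((List.range (B ^ K)).filterMap fun y => if rho B y = ρ then labY zs B y else none) =
      if ρ < B ^ K ∧ ρ ≠ 0 ∧ ld B ρ = 1 then zs else []
  | 0 => by
      have h1 : ¬ (ρ < B ^ 0 ∧ ρ ≠ 0 ∧ ld B ρ = 1) := by
        rw [pow_zero]; omega
      rw [if_neg h1, pow_zero]
      simp [labY]
  | K + 1 => by
      have hpos : 0 < B ^ K := by positivity
      have e0 : B ^ (K + 1) = B ^ K + B ^ K * zs.length := by
        rw [pow_succ, ← hz]; ring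
      rw [e0, List.range_add, List.filterMap_append, members_Y ρ K, List.filterMap_map, range_mul,
        List.filterMap_flatMap]
      have e1 : ((List.range zs.length).flatMap fun x =>
          ((List.finRange (B ^ K)).map fun j : Fin (B ^ K) => x * B ^ K + (j : ℕ)).filterMap
            ((fun y => if rho B y = ρ then labY zs B y else none) ∘ fun x => B ^ K + x)) =
          (List.range zs.length).flatMap fun x =>
            if B ^ K ≤ ρ ∧ ρ < B ^ K + B ^ K then (zs[x]?).toList else [] := by
        apply List.flatMap_congr
        intro x hx
        rw [List.mem_range] at hx
        rw [← filterMap_range_one (B ^ K) (B ^ K) ρ (zs[x]?), ← List.map_coe_finRange_eq_range,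
          List.filterMap_map, List.filterMap_map]
        apply List.filterMap_congr
        intro j _
        show (if rho B (B ^ K + (x * B ^ K + (j : ℕ))) = ρ then
          labY zs B (B ^ K + (x * B ^ K + (j : ℕ))) else none) =
          if B ^ K + (j : ℕ) = ρ then zs[x]? else none
        have e2 : B ^ K + (x * B ^ K + (j : ℕ)) = (x + 1) * B ^ K + j := by ring
        rw [e2, rho_mul_add hB (by omega) j.2, labY_mul_add hB j.2,
          if_neg (by omega : ¬ x + 1 = 0), rho_small (by omega) (by omega), one_mul]
        have e3 : labY zs B (x + 1) = zs[x]? := by
          unfold labY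
          rw [if_neg (by omega), ld_small (by omega)]
          rfl
        rw [e3]
      rw [e1]
      by_cases h1 : B ^ K ≤ ρ ∧ ρ < B ^ K + B ^ K
      · have h2 : ρ = 1 * B ^ K + (ρ - B ^ K) := by omega
        have h3 : ld B ρ = 1 := by
          rw [h2, ld_mul_add hB (by omega) (by omega), ld_small (by omega)]
        have h4 : ρ < B ^ K + B ^ K * zs.length := by
          have : B ^ K * 1 ≤ B ^ K * zs.length := Nat.mul_le_mul_left _ (by omega)
          omega
        simp only [if_pos h1]
        rw [if_neg (by omega), if_pos ⟨h4, by omega, h3⟩, flatMap_getElem, List.nil_append]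
      · simp only [if_neg h1]
        have h2 : ((List.range zs.length).flatMap fun _ => ([] : List Γ)) = [] := by
          rw [List.flatMap_eq_nil_iff]
          intro _ _; rfl
        rw [h2, List.append_nil]
        by_cases h3 : ρ < B ^ K
        · have h4 : ρ < B ^ K + B ^ K * zs.length := by omega
          simp only [h3, h4]
        · have h4 : ¬ (ρ < B ^ K + B ^ K * zs.length ∧ ρ ≠ 0 ∧ ld B ρ = 1) := by
            rintro ⟨h5, h6, h7⟩
            have h8 : ρ = ρ / B ^ K * B ^ K + ρ % B ^ K := (Nat.div_add_mod' ρ _).symm
            have h9 : 0 < ρ / B ^ K := Nat.div_pos (by omega) hpos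
            have h10 := Nat.mod_lt ρ hpos
            rw [h8, ld_mul_add hB h9 h10] at h7
            have h11 : ρ / B ^ K < B := by
              apply Nat.div_lt_of_lt_mul
              rw [← e0, pow_succ] at h5
              exact h5
            rw [ld_small h11] at h7
            rw [h7] at h8
            omega
          rw [if_neg (by omega), if_neg h4]

/-- The first elements of copies. -/
def repA (B : ℕ) : List (Option Γ) → ℕ → Bool
  | [], _ => false
  | none :: w, ρ => repA B w ρ
  | some _ :: w, ρ => if ρ < B ^ w.length then (decide (ρ ≠ 0) && decide (ld B ρ = 1)) else
      repA B w (ρ - B ^ w.length)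

/-- The hidden letter with a given number. -/
def hidA (B : ℕ) : List (Option Γ) → ℕ → Option Γ
  | [], _ => none
  | none :: w, ρ => hidA B w ρ
  | some g :: w, ρ => if ρ < B ^ w.length then (if ρ = 0 then some g else none) else
      hidA B w (ρ - B ^ w.length)

omit hB hz in
lemma labA_some_lt (g : Γ) (w : List (Option Γ)) (x : ℕ) (hx : x < B ^ w.length) :
    labA zs B (some g :: w) x = labR zs B g x := by
  unfold labA
  rw [nn_some, seg_some, if_pos (by omega), if_pos hx]
  rfl

omit hB hz in
lemma labA_some_ge (g : Γ) (w : List (Option Γ)) (x : ℕ) :
    labA zs B (some g :: w) (B ^ w.length + x) = labA zs B w x := by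
  unfold labA
  rw [nn_some, seg_some, if_neg (by omega : ¬ B ^ w.length + x < B ^ w.length),
    Nat.add_sub_cancel_left]
  by_cases h : x < nn B w
  · rw [if_pos h, if_pos (by omega)]
  · rw [if_neg h, if_neg (by omega)]

omit hB hz in
lemma labA_none (w : List (Option Γ)) (x : ℕ) :
    labA zs B (none :: w) x = labA zs B w x := rfl

/-- Labels with kind `c`. -/
def pick (c : Bool) (z : Γ × Bool) : Option Γ := if z.2 = c then some z.1 else none

/-- The genuine letters with a given `rhoA`. -/
lemma members_true : ∀ (w : List (Option Γ)) (ρ : ℕ),
    ((List.range (nn B w)).filterMap fun m => if rhoA B w m = ρ then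
      (labA zs B w m).bind (pick true) else none) = if repA B w ρ = true then zs else []
  | [], ρ => by simp [nn, repA]
  | none :: w, ρ => members_true w ρ
  | some g :: w, ρ => by
      rw [nn_some, List.range_add, List.filterMap_append, List.filterMap_map]
      have e1 : ((List.range (B ^ w.length)).filterMap fun m =>
          if rhoA B (some g :: w) m = ρ then
            (labA zs B (some g :: w) m).bind (pick true) else none) =
          (List.range (B ^ w.length)).filterMap fun y =>
            if rho B y = ρ then labY zs B y else none := by
        apply List.filterMap_congr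
        intro m hm
        rw [List.mem_range] at hm
        rw [rhoA_some, if_pos hm, labA_some_lt g w m hm]
        congr 1
        unfold labR
        by_cases hm0 : m = 0
        · subst hm0
          simp [pick, labY]
        · rw [if_neg hm0]
          cases labY zs B m <;> simp [pick]
      have e2 : ((List.range (nn B w)).filterMap ((fun m =>
          if rhoA B (some g :: w) m = ρ then
            (labA zs B (some g :: w) m).bind (pick true) else none) ∘
            fun x => B ^ w.length + x)) =
          if B ^ w.length ≤ ρ then ((List.range (nn B w)).filterMap fun m =>
            if rhoA B w m = ρ - B ^ w.length then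
              (labA zs B w m).bind (pick true) else none) else [] := by
        by_cases hρ : B ^ w.length ≤ ρ
        · rw [if_pos hρ]
          apply List.filterMap_congr
          intro m _
          show (if rhoA B (some g :: w) (B ^ w.length + m) = ρ then
            (labA zs B (some g :: w) (B ^ w.length + m)).bind (pick true) else none) = _
          rw [rhoA_some, if_neg (by omega : ¬ B ^ w.length + m < B ^ w.length), labA_some_ge,
            Nat.add_sub_cancel_left]
          by_cases h : rhoA B w m = ρ - B ^ w.length
          · rw [if_pos h, if_pos (by omega)]
          · rw [if_neg h, if_neg (by omega)]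
        · rw [if_neg hρ]
          rw [List.filterMap_eq_nil_iff]
          intro m _
          show (if rhoA B (some g :: w) (B ^ w.length + m) = ρ then
            (labA zs B (some g :: w) (B ^ w.length + m)).bind (pick true) else none) = _
          rw [rhoA_some, if_neg (by omega : ¬ B ^ w.length + m < B ^ w.length),
            if_neg (by omega)]
      rw [e1, e2, members_Y hB hz, members_true w (ρ - B ^ w.length)]
      show _ = if (if ρ < B ^ w.length then (decide (ρ ≠ 0) && decide (ld B ρ = 1)) else
        repA B w (ρ - B ^ w.length)) = true then zs else []
      by_cases hρ : ρ < B ^ w.length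
      · rw [if_neg (by omega : ¬ B ^ w.length ≤ ρ), List.append_nil, if_pos hρ]
        simp only [hρ, true_and, Bool.and_eq_true, decide_eq_true_eq]
      · rw [if_pos (by omega : B ^ w.length ≤ ρ), if_neg hρ, if_neg (by omega),
          List.nil_append]

/-- The hidden letters with a given `rhoA`. -/
lemma members_false : ∀ (w : List (Option Γ)) (ρ : ℕ),
    ((List.range (nn B w)).filterMap fun m => if rhoA B w m = ρ then
      (labA zs B w m).bind (pick false) else none) = (hidA B w ρ).toList
  | [], ρ => by simp [nn, hidA]
  | none :: w, ρ => members_false w ρ
  | some g :: w, ρ => by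
      have hpos : 0 < B ^ w.length := by positivity
      rw [nn_some, List.range_add, List.filterMap_append, List.filterMap_map]
      have e1 : ((List.range (B ^ w.length)).filterMap fun m =>
          if rhoA B (some g :: w) m = ρ then
            (labA zs B (some g :: w) m).bind (pick false) else none) =
          (List.range (B ^ w.length)).filterMap fun y =>
            if 0 + y = 0 then (if ρ = 0 then some g else none) else none := by
        apply List.filterMap_congr
        intro m hm
        rw [List.mem_range] at hm
        rw [rhoA_some, if_pos hm, labA_some_lt g w m hm]
        unfold labR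
        by_cases hm0 : m = 0
        · subst hm0
          rw [rho_zero]
          by_cases hρ : ρ = 0
          · subst hρ; simp [pick]
          · simp [hρ, Ne.symm hρ]
        · rw [if_neg hm0, if_neg (by omega : ¬ 0 + m = 0)]
          cases labY zs B m <;> simp [pick]
      have e2 : ((List.range (nn B w)).filterMap ((fun m =>
          if rhoA B (some g :: w) m = ρ then
            (labA zs B (some g :: w) m).bind (pick false) else none) ∘
            fun x => B ^ w.length + x)) =
          if B ^ w.length ≤ ρ then ((List.range (nn B w)).filterMap fun m =>
            if rhoA B w m = ρ - B ^ w.length then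
              (labA zs B w m).bind (pick false) else none) else [] := by
        by_cases hρ : B ^ w.length ≤ ρ
        · rw [if_pos hρ]
          apply List.filterMap_congr
          intro m _
          show (if rhoA B (some g :: w) (B ^ w.length + m) = ρ then
            (labA zs B (some g :: w) (B ^ w.length + m)).bind (pick false) else none) = _
          rw [rhoA_some, if_neg (by omega : ¬ B ^ w.length + m < B ^ w.length), labA_some_ge,
            Nat.add_sub_cancel_left]
          by_cases h : rhoA B w m = ρ - B ^ w.length
          · rw [if_pos h, if_pos (by omega)]
          · rw [if_neg h, if_neg (by omega)]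
        · rw [if_neg hρ]
          rw [List.filterMap_eq_nil_iff]
          intro m _
          show (if rhoA B (some g :: w) (B ^ w.length + m) = ρ then
            (labA zs B (some g :: w) (B ^ w.length + m)).bind (pick false) else none) = _
          rw [rhoA_some, if_neg (by omega : ¬ B ^ w.length + m < B ^ w.length),
            if_neg (by omega)]
      rw [e1, e2, filterMap_range_one, members_false w (ρ - B ^ w.length), if_pos (by omega)]
      show _ = (if ρ < B ^ w.length then (if ρ = 0 then some g else none) else
        hidA B w (ρ - B ^ w.length)).toList
      by_cases hρ : ρ < B ^ w.length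
      · rw [if_neg (by omega : ¬ B ^ w.length ≤ ρ), List.append_nil, if_pos hρ]
      · rw [if_pos (by omega : B ^ w.length ≤ ρ), if_neg hρ, if_neg (by omega)]
        rfl

omit hz in
/-- All hidden letters in order. -/
lemma hidden_list : ∀ (w : List (Option Γ)) (N : ℕ), nn B w ≤ N →
    ((List.range N).flatMap fun ρ => (hidA B w ρ).toList) = w.reduceOption
  | [], N, _ => by
      show ((List.range N).flatMap fun ρ => (hidA B ([] : List (Option Γ)) ρ).toList) = []
      rw [List.flatMap_eq_nil_iff]
      intro _ _
      rfl
  | none :: w, N, h => by
      rw [List.reduceOption_cons_of_none]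
      exact hidden_list w N h
  | some g :: w, N, h => by
      have hpos : 0 < B ^ w.length := by positivity
      rw [nn_some] at h
      obtain ⟨M, rfl⟩ := Nat.exists_eq_add_of_le (by omega : B ^ w.length ≤ N)
      rw [List.reduceOption_cons_of_some, List.range_add, List.flatMap_append,
        List.flatMap_map]
      have e1 : ((List.range (B ^ w.length)).flatMap fun ρ =>
          (hidA B (some g :: w) ρ).toList) = [g] := by
        have h1 : ∀ ρ ∈ List.range (B ^ w.length), (hidA B (some g :: w) ρ).toList =
            (if ρ = 0 then some g else none).toList := by
          intro ρ hρ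
          rw [List.mem_range] at hρ
          show (if ρ < B ^ w.length then (if ρ = 0 then some g else none) else
            hidA B w (ρ - B ^ w.length)).toList = _
          rw [if_pos hρ]
        rw [List.flatMap_congr h1]
        obtain ⟨P, hP⟩ := Nat.exists_eq_add_of_le (by omega : 1 ≤ B ^ w.length)
        rw [hP, List.range_add, List.flatMap_append, List.flatMap_map]
        have h2 : ((List.range P).flatMap fun a =>
            (if 1 + a = 0 then some g else none : Option Γ).toList) = [] := by
          rw [List.flatMap_eq_nil_iff]
          intro a _
          rw [if_neg (by omega)]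
          rfl
        rw [h2]
        rfl
      have e2 : ((List.range M).flatMap fun ρ =>
          (hidA B (some g :: w) (B ^ w.length + ρ)).toList) =
          (List.range M).flatMap fun ρ => (hidA B w ρ).toList := by
        apply List.flatMap_congr
        intro ρ _
        show (if B ^ w.length + ρ < B ^ w.length then
          (if B ^ w.length + ρ = 0 then some g else none) else
          hidA B w (B ^ w.length + ρ - B ^ w.length)).toList = _
        rw [if_neg (by omega), Nat.add_sub_cancel_left]
      rw [e1, e2, hidden_list w M (by omega)]
      rfl

end

end AddInv
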