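import Pool.Agent.H27AI.EfL

/-!
# Hidden words act through a finite set that does not depend on the repeated words
-/

namespace AddInv

section

variable {A : Type} {b : ℕ}

lemma nn_blank {Γ : Type} (B M : ℕ) : nn B (List.replicate M (none : Option Γ)) = 0 := by
  induction M with
  | zero => rfl
  | succ M ih => exact ih

lemma nn_map_some {Γ : Type} {B : ℕ} (hB : 2 ≤ B) : ∀ u : List Γ, u.length ≤ nn B (u.map some)
  | [] => by simp
  | a :: u => by
      rw [List.map_cons, nn_some, List.length_cons]
      have h1 := nn_map_some hB u
      have h2 : 0 < B ^ (u.map some).length := by positivity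
      omega

lemma bern (T M : ℕ) : 1 + T * M ≤ (T + 1) ^ M := by
  induction M with
  | zero => simp
  | succ M ih =>
    rw [pow_succ]
    have h1 := Nat.mul_le_mul_right (T + 1) ih
    have h2 : (1 + T * M) * (T + 1) = 1 + T * (M + 1) + T * M * T := by ring
    rw [h2] at h1
    have h3 : 0 ≤ T * M * T := Nat.zero_le _
    omega

/-- Blanks along an arithmetic progression do not change the type. -/
lemma exists_blankL {Γ : Type} [Finite Γ] (zs : List Γ) {B : ℕ} (hB : 2 ≤ B) (q : ℕ) :
    ∃ m d : ℕ, 0 < d ∧ ∀ t : ℕ,
      thetaL zs B q (List.replicate (m + t * d) (none : Option Γ)) =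
        thetaL zs B q (List.replicate m (none : Option Γ)) := by
  obtain ⟨i, j, h1, h2⟩ := Finite.exists_ne_map_eq_of_infinite
    (fun m : ℕ => thetaL zs B q (List.replicate m (none : Option Γ)))
  wlog hlt : i < j generalizing i j
  · exact this j i h1.symm h2.symm (by omega)
  refine ⟨i, j - i, by omega, fun t => ?_⟩
  induction t with
  | zero => simp
  | succ t ih =>
    have e1 : List.replicate (i + (t + 1) * (j - i)) (none : Option Γ) =
        List.replicate (i + t * (j - i)) none ++ List.replicate (j - i) none := by
      rw [← List.replicate_add]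
      congr 1
      ring
    have e2 : List.replicate i (none : Option Γ) ++ List.replicate (j - i) none =
        List.replicate j none := by
      rw [← List.replicate_add]
      congr 1
      omega
    rw [e1, thetaL_append hB ih rfl, e2]
    exact h2.symm

lemma reduce_some_blank {Γ : Type} (u : List Γ) (M : ℕ) :
    (u.map some ++ List.replicate M none).reduceOption = u := by
  rw [List.reduceOption_append]
  have h1 : (List.replicate M (none : Option Γ)).reduceOption = [] := by
    induction M with
    | zero => rfl
    | succ M ih => rw [List.replicate_succ, List.reduceOption_cons_of_none]; exact ih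
  have h2 : (u.map some).reduceOption = u := by
    induction u with
    | nil => rfl
    | cons a u ih => rw [List.map_cons, List.reduceOption_cons_of_some, ih]
  rw [h1, h2, List.append_nil]

/-- Hidden words act through a finite set that does not depend on the repeated words. -/
theorem uniform_types_of [Finite A] {f : Fml A 0} (b : ℕ)
    (hreal : ∀ (W x : Fin b → List A), 0 < size W → ∀ w : List (Option (A × Fin b)),
      w.reduceOption = flg x → flg x ≠ [] → ∃ i : ℕ,
        i * (flg W).length + (flg x).length = nn ((flg W).length + 1) w ∧
        (pump x W i ∈ langOf f ↔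
          SatM (strL (flg W) ((flg W).length + 1) w) f Fin.elim0)) :
    ∃ (T : Type) (_ : Finite T), ∀ W : Fin b → List A, 0 < size W →
      ∃ (dl : A × Fin b → T → T) (t0 : T) (acc : Set T),
        ∀ x : Fin b → List A, flg x ≠ [] → ∀ N : ℕ, ∃ i ≥ N,
          (pump x W i ∈ langOf f ↔ (flg x).foldl (fun t a => dl a t) t0 ∈ acc) := by
  classical
  refine ⟨Ty (CodeL (A × Fin b)) (rk f) 0, inferInstance, ?_⟩
  intro W hW
  set zs := flg W with hzs
  have hzl : 0 < zs.length := by rw [hzs, size_flg]; exact hW
  set B := zs.length + 1 with hBdef
  have hB : 2 ≤ B := by omega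
  have hz : zs.length + 1 = B := rfl
  let θ : List (A × Fin b) → Ty (CodeL (A × Fin b)) (rk f) 0 := fun u =>
    thetaL zs B (rk f) (u.map some)
  let dl : A × Fin b → Ty (CodeL (A × Fin b)) (rk f) 0 → Ty (CodeL (A × Fin b)) (rk f) 0 :=
    fun a t => if h : ∃ u, θ u = t then θ (h.choose ++ [a]) else t
  obtain ⟨m, d, hd, hblank⟩ := exists_blankL zs hB (rk f)
  have hfold : ∀ u : List (A × Fin b), u.foldl (fun t a => dl a t) (θ []) = θ u := by
    intro u
    induction u using List.reverseRecOn with
    | nil => rfl
    | append_singleton u a ih =>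
      rw [List.foldl_append, ih]
      show dl a (θ u) = θ (u ++ [a])
      have h : ∃ u', θ u' = θ u := ⟨u, rfl⟩
      have h1 : dl a (θ u) = θ (h.choose ++ [a]) := dif_pos h
      rw [h1]
      show thetaL zs B (rk f) ((h.choose ++ [a]).map some) =
        thetaL zs B (rk f) ((u ++ [a]).map some)
      rw [List.map_append, List.map_append]
      exact thetaL_append hB h.choose_spec rfl
  refine ⟨dl, θ [], {t | ∃ u, θ u = t ∧
    SatM (strL zs B (u.map some ++ List.replicate m none)) f Fin.elim0}, ?_⟩
  intro x hx N
  obtain ⟨i, hi1, hi2⟩ := hreal W x hW ((flg x).map some ++ List.replicate (m + N * d) none)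
    (reduce_some_blank _ _) hx
  refine ⟨i, ?_, ?_⟩
  · rw [nn_append, nn_blank, add_zero, List.length_replicate] at hi1
    have h1 := nn_map_some hB (flg x)
    have h2 := bern zs.length (m + N * d)
    have h3 : nn B ((flg x).map some) * (1 + zs.length * (m + N * d)) ≤
        nn B ((flg x).map some) * B ^ (m + N * d) := Nat.mul_le_mul_left _ h2
    have h4 : 0 < (flg x).length := List.length_pos_iff.2 hx
    have h5 : 1 * (zs.length * (m + N * d)) ≤
        nn B ((flg x).map some) * (zs.length * (m + N * d)) :=
      Nat.mul_le_mul_right _ (by omega)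
    have h6 : zs.length * (m + N * d) ≤ i * zs.length := by
      rw [mul_add, mul_one] at h3
      change i * zs.length + (flg x).length = nn B ((flg x).map some) * B ^ (m + N * d) at hi1
      omega
    rw [mul_comm] at h6
    have h7 := Nat.le_of_mul_le_mul_right h6 hzl
    have h8 : N ≤ N * d := Nat.le_mul_of_pos_right _ hd
    omega
  · rw [hi2, hfold]
    have e1 : thetaL zs B (rk f) ((flg x).map some ++ List.replicate (m + N * d) none) =
        thetaL zs B (rk f) ((flg x).map some ++ List.replicate m none) :=
      thetaL_append hB rfl (hblank N)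
    rw [efL_sentence hB hz f e1]
    constructor
    · intro h; exact ⟨flg x, rfl, h⟩
    · rintro ⟨u, hu, h⟩
      have e2 : thetaL zs B (rk f) (u.map some ++ List.replicate m none) =
          thetaL zs B (rk f) ((flg x).map some ++ List.replicate m none) :=
        thetaL_append hB hu rfl
      exact (efL_sentence hB hz f e2).1 h

end

end AddInv
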