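import Pool.Agent.H27AI.RealL
import Pool.Agent.H27AI.Uniform
import Pool.Agent.H66.AI.Multi

/-!
# Realisation of a marked line by a word with a numbering
-/

namespace AddInv

section

variable {A : Type} {b : ℕ}

/-- The number of copies. -/
def copies {Γ : Type} (B : ℕ) (w : List (Option Γ)) : ℕ :=
  ((List.range (B ^ w.length)).filter (repA B w)).length

lemma length_pump (x W : Fin b → List A) (i : ℕ) :
    (pump x W i).length = size x + i * size W := by
  unfold pump size
  rw [List.length_flatMap]
  have h1 : ∀ t : Fin b, (x t ++ (List.replicate i (W t)).flatten).length =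
      (x t).length + i * (W t).length := by
    intro t
    rw [List.length_append, length_pow]
  simp only [h1]
  rw [← Fin.sum_univ_def, Finset.sum_add_distrib, Finset.mul_sum]

/-- The word spelled by the structure of a marked line. -/
lemma real_word {f : Fml A 0} (hf : AddInvariant f) (W x : Fin b → List A) (hW : 0 < size W)
    (w : List (Option (A × Fin b))) (hw : w.reduceOption = flg x) (hx : flg x ≠ []) :
    ∃ i : ℕ, i * (flg W).length + (flg x).length = nn ((flg W).length + 1) w ∧
      (pump x W i ∈ langOf f ↔ SatM (strL (flg W) ((flg W).length + 1) w) f Fin.elim0) := by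
  set zs := flg W with hzs
  have hzl : 0 < zs.length := by rw [hzs, size_flg]; exact hW
  set B := zs.length + 1 with hBdef
  have hB : 2 ≤ B := by omega
  have hz : zs.length + 1 = B := rfl
  set S := strL zs B w with hS
  have hn : S.n = nn B w := rfl
  set P := B ^ w.length with hP
  have hpos : 0 < P := by rw [hP]; positivity
  have hlab : ∀ m < S.n, ∃ z, labA zs B w m = some z := fun m hm =>
    Option.isSome_iff_exists.1 (labA_isSome hB hz w m hm)
  have hrho : ∀ m < S.n, rhoA B w m < P := fun m hm => rhoA_lt_pow hB w m hm
  have hkeyeq : ∀ m z, labA zs B w m = some z → S.key m = keyF z * P + rhoA B w m := by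
    intro m z h
    show (labA zs B w m).elim 0 _ = _
    rw [h]
    rfl
  have hkey : ∀ m < S.n, S.key m < P * (2 * b) := by
    intro m hm
    obtain ⟨z, hz1⟩ := hlab m hm
    rw [hkeyeq m z hz1, mul_comm P]
    exact (block_lt_iff (hrho m hm)).2 (keyF_lt z)
  have hltr : ∀ m < S.n, (S.ltr m).isSome := by
    intro m hm
    obtain ⟨z, hz1⟩ := hlab m hm
    show ((labA zs B w m).map letF).isSome
    rw [hz1]
    rfl
  have hword := byKey_map S.n (P * (2 * b)) S.key S.ltr hltr
  have hperm := byKey_perm S.n (P * (2 * b)) S.key hkey
  -- the contribution of one flag, kind and value of `rhoA`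
  have hpart : ∀ (t : Fin b) (c : Bool) (j : ℕ), j < P →
      ((List.range S.n).filterMap fun m =>
        if S.key m = (2 * (t : ℕ) + c.toNat) * P + j then S.ltr m else none) =
      proj t ((List.range (nn B w)).filterMap fun m => if rhoA B w m = j then
        (labA zs B w m).bind (pick c) else none) := by
    intro t c j hj
    unfold proj
    rw [List.filterMap_filterMap, hn]
    apply List.filterMap_congr
    intro m hm
    rw [List.mem_range] at hm
    obtain ⟨z, hz1⟩ := hlab m hm
    have hk : S.key m = (2 * (t : ℕ) + c.toNat) * P + j ↔
        (z.2 = c ∧ z.1.2 = t) ∧ rhoA B w m = j := by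
      rw [hkeyeq m z hz1, eq_aux (hrho m hm) hj, keyF_eq]
    have hl : S.ltr m = some z.1.1 := by
      show (labA zs B w m).map letF = _
      rw [hz1]
      rfl
    rw [hl, hz1]
    by_cases h1 : rhoA B w m = j
    · by_cases h2 : z.2 = c
      · by_cases h3 : z.1.2 = t
        · rw [if_pos (hk.2 ⟨⟨h2, h3⟩, h1⟩), if_pos h1]
          simp [h2, h3, pick]
        · rw [if_neg (fun h => h3 (hk.1 h).1.2), if_pos h1]
          simp [h2, h3, pick]
      · rw [if_neg (fun h => h2 (hk.1 h).1.1), if_pos h1]
        simp [h2, pick]
    · rw [if_neg (fun h => h1 (hk.1 h).2), if_neg h1]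
      rfl
  have hspell : ((List.range (P * (2 * b))).flatMap fun κ => (List.range S.n).filterMap
      fun m => if S.key m = κ then S.ltr m else none) = pump x W (copies B w) := by
    rw [range_mul, List.flatMap_assoc]
    simp only [List.flatMap_map]
    rw [range_two_mul]
    unfold pump
    apply List.flatMap_congr
    intro t _
    have hF : ∀ c : Bool, ((List.finRange P).flatMap fun j : Fin P =>
        (List.range S.n).filterMap fun m =>
          if S.key m = (2 * (t : ℕ) + c.toNat) * P + (j : ℕ) then S.ltr m else none) =
        (List.range P).flatMap fun j => proj t ((List.range (nn B w)).filterMap fun m =>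
          if rhoA B w m = j then (labA zs B w m).bind (pick c) else none) := by
      intro c
      have hr : List.range P = (List.finRange P).map fun j : Fin P => (j : ℕ) :=
        List.map_coe_finRange_eq_range.symm
      conv_rhs => rw [hr, List.flatMap_map]
      apply List.flatMap_congr
      intro j _
      exact hpart t c j j.2
    have h0 := hF false
    have h1 := hF true
    simp only [Bool.toNat_false, Bool.toNat_true, add_zero] at h0 h1
    rw [h0, h1]
    congr 1
    · have e1 : ∀ j ∈ List.range P, proj t ((List.range (nn B w)).filterMap fun m =>
          if rhoA B w m = j then (labA zs B w m).bind (pick false) else none) =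
          proj t (hidA B w j).toList := by
        intro j _
        rw [members_false hB hz w j]
      rw [List.flatMap_congr e1, ← proj_flatMap, hidden_list hB w P (nn_lt hB w).le, hw,
        proj_flg]
    · have e1 : ∀ j ∈ List.range P, proj t ((List.range (nn B w)).filterMap fun m =>
          if rhoA B w m = j then (labA zs B w m).bind (pick true) else none) =
          if repA B w j = true then W t else [] := by
        intro j _
        rw [members_true hB hz w j]
        by_cases h : repA B w j = true
        · rw [if_pos h, if_pos h, hzs, proj_flg]
        · rw [if_neg h, if_neg h]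
          rfl
      rw [List.flatMap_congr e1, flatMap_if]
      rfl
  rw [hspell] at hword
  refine ⟨copies B w, ?_, ?_⟩
  · have h1 := congrArg List.length hword
    rw [List.length_map, List.length_map, hperm.length_eq, List.length_range, length_pump,
      hn] at h1
    rw [hzs, size_flg, size_flg]
    omega
  · rw [mem_iff_satM hf S _ _ hperm (byKey_pairwise S.n (P * (2 * b)) S.key) hword]
    constructor
    · rintro ⟨_, h⟩; exact h
    · intro h
      refine ⟨?_, h⟩
      intro h0
      have h1 := congrArg List.length h0
      rw [length_pump, List.length_nil] at h1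
      rw [← List.length_pos_iff, size_flg] at hx
      omega

/-- **Hidden words act through a finite set that does not depend on the repeated words.** -/
theorem uniform_types [Finite A] {f : Fml A 0} (hf : AddInvariant f) (b : ℕ) :
    ∃ (T : Type) (_ : Finite T), ∀ W : Fin b → List A, 0 < size W →
      ∃ (dl : A × Fin b → T → T) (t0 : T) (acc : Set T),
        ∀ x : Fin b → List A, flg x ≠ [] → ∀ N : ℕ, ∃ i ≥ N,
          (pump x W i ∈ langOf f ↔ (flg x).foldl (fun t a => dl a t) t0 ∈ acc) :=
  uniform_types_of b fun W x hW w hw hx => real_word hf W x hW w hw hx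

end

end AddInv
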