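import Pool.Agent.H27AI.RealW
import Pool.Agent.H27AI.Immune

/-!
# Few powers uniformly in the bases, context-free immunity: unconditional forms
-/

namespace AddInv

variable {A : Type}

/-- One constant and one regular language for all products of few powers. -/
theorem uniform_few_powers [Finite A] {L : Language A} (hL : Definable L) :
    ∃ (C : ℕ) (K : Language A), K.IsRegular ∧
      ∀ l : List (List A × ℕ), C * cost l ≤ (expand l).length →
        (expand l ∈ L ↔ expand l ∈ K) := by
  obtain ⟨f, hf, rfl⟩ := hL
  exact uniform_few_powers_of hf (uniform_types hf 2)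

/-- There is one regular language `K` such that for all context-free `M` and regular `R` with
`M ∩ R` inside the symmetric difference of `L` and `K`, the language `M ∩ R` is finite. -/
theorem cf_immunity [Finite A] {L : Language A} (hL : Definable L) :
    ∃ K : Language A, K.IsRegular ∧ ∀ M : Language A, M.IsContextFree →
      ((∀ w ∈ M, ¬ (w ∈ L ↔ w ∈ K)) → Set.Finite {w | w ∈ M}) ∧
      ((∀ w ∈ M, w ∈ L) → {w | w ∈ M ∧ w ∉ K}.Finite) ∧
      ((∀ w ∈ M, w ∉ L) → {w | w ∈ M ∧ w ∈ K}.Finite) := by
  obtain ⟨C, K, hK, h⟩ := uniform_few_powers hL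
  have hA : Agree L K := ⟨C, h⟩
  exact ⟨K, hK, fun M hM => ⟨fun hd => cf_diff hA hM hd, cf_sandwich hA hK hM⟩⟩

/-- A definable language that is context-free with context-free complement is regular. -/
theorem regular_of_cf [Finite A] {L : Language A} (hL : Definable L) (h1 : L.IsContextFree)
    (h2 : Language.IsContextFree Lᶜ) : L.IsRegular := by
  obtain ⟨C, K, hK, h⟩ := uniform_few_powers hL
  exact regular_of_cf_cocf ⟨C, h⟩ hK h1 h2

end AddInv
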